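import Pool.Agent.R509.PP.Equi

/-!
Library R509.PP (helper509): sequences on the circle with vanishing differences are real polynomials modulo one.
-/

set_option autoImplicit false

namespace Pool.Agent.R509.PP

open Finset Polynomial

lemma diff_of_poly (P : ℝ[X]) (d : ℕ) (hP : P.natDegree ≤ d) (a : ℕ → UnitAddCircle)
    (ha : ∀ n : ℕ, a n = ((P.eval (n : ℝ) : ℝ) : UnitAddCircle)) (n : ℕ) :
    ∑ k ∈ range (d + 2), ((-1 : ℤ) ^ (d + 1 - k) * ((d + 1).choose k : ℤ)) • a (n + k) = 0 := by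
  have h1 := congrFun (Polynomial.fwdDiff_iter_eq_zero_of_degree_lt (P := P) (n := d + 1) (by omega)) (n : ℝ)
  rw [fwdDiff_iter_eq_sum_shift] at h1
  have h2 : ∑ k ∈ range (d + 2), ((-1 : ℤ) ^ (d + 1 - k) * ((d + 1).choose k : ℤ)) • a (n + k) =
      ((∑ k ∈ range (d + 1 + 1), ((-1 : ℤ) ^ (d + 1 - k) * ((d + 1).choose k : ℤ)) • P.eval ((n : ℝ) + k • (1 : ℝ)) : ℝ) : UnitAddCircle) := by
    have h3 : ∀ (s : Finset ℕ) (f : ℕ → ℝ), ((∑ k ∈ s, f k : ℝ) : UnitAddCircle) = ∑ k ∈ s, ((f k : ℝ) : UnitAddCircle) := by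
      intro s f
      exact map_sum (QuotientAddGroup.mk' (AddSubgroup.zmultiples (1 : ℝ))) f s
    rw [h3]
    apply sum_congr rfl
    intro k _
    rw [ha]
    push_cast
    rw [nsmul_eq_mul, mul_one]
    exact (map_zsmul (QuotientAddGroup.mk' (AddSubgroup.zmultiples (1 : ℝ))) _ _).symm
  rw [h2, h1]
  rfl

lemma poly_of_diff (a : ℕ → UnitAddCircle) (d : ℕ)
    (h : ∀ n : ℕ, ∑ k ∈ range (d + 2), ((-1 : ℤ) ^ (d + 1 - k) * ((d + 1).choose k : ℤ)) • a (n + k) = 0) :
    ∃ P : ℝ[X], P.natDegree ≤ d ∧ ∀ n : ℕ, a n = ((P.eval (n : ℝ) : ℝ) : UnitAddCircle) := by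
  have h0 : (fwdDiff 1)^[d + 1] a = 0 := by
    funext n
    rw [fwdDiff_iter_eq_sum_shift]
    have := h n
    simpa using this
  have h0' : ∀ j : ℕ, (fwdDiff 1)^[j] (0 : ℕ → UnitAddCircle) = 0 := by
    intro j
    induction j with
    | zero => rfl
    | succ j ih =>
      rw [Function.iterate_succ_apply', ih]
      funext n
      simp [fwdDiff]
  have h1 : ∀ k : ℕ, d < k → (fwdDiff 1)^[k] a 0 = 0 := by
    intro k hk
    obtain ⟨j, rfl⟩ : ∃ j, k = j + (d + 1) := ⟨k - (d + 1), by omega⟩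
    rw [Function.iterate_add_apply, h0, h0']
    rfl
  have hsurj : ∀ y : UnitAddCircle, ∃ c : ℝ, (c : UnitAddCircle) = y := QuotientAddGroup.mk_surjective
  choose lift hlift using hsurj
  set c : ℕ → ℝ := fun k => lift ((fwdDiff 1)^[k] a 0) with hc
  refine ⟨∑ k ∈ range (d + 1), C (c k / (k.factorial : ℝ)) * descPochhammer ℝ k, ?_, ?_⟩
  · apply natDegree_sum_le_of_forall_le
    intro k hk
    rw [mem_range] at hk
    refine (natDegree_C_mul_le _ _).trans ?_
    rw [descPochhammer_natDegree]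
    omega
  · intro n
    have h2 := shift_eq_sum_fwdDiff_iter 1 a n 0
    have h3 : a (0 + n • 1) = a n := by simp
    rw [h3] at h2
    rw [h2, eval_finsetSum]
    have h4 : ∑ k ∈ range (n + 1), n.choose k • (fwdDiff 1)^[k] a 0 = ∑ k ∈ range (n + d + 1), n.choose k • (fwdDiff 1)^[k] a 0 := by
      apply sum_subset (range_subset_range.2 (by omega))
      intro k _ hk
      rw [mem_range, not_lt] at hk
      rw [Nat.choose_eq_zero_of_lt (by omega), zero_smul]
    have h5 : ∑ k ∈ range (d + 1), n.choose k • (fwdDiff 1)^[k] a 0 = ∑ k ∈ range (n + d + 1), n.choose k • (fwdDiff 1)^[k] a 0 := by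
      apply sum_subset (range_subset_range.2 (by omega))
      intro k _ hk
      rw [mem_range, not_lt] at hk
      rw [h1 k (by omega), smul_zero]
    rw [h4, ← h5]
    have h6 : ∀ (s : Finset ℕ) (f : ℕ → ℝ), ((∑ k ∈ s, f k : ℝ) : UnitAddCircle) = ∑ k ∈ s, ((f k : ℝ) : UnitAddCircle) := by
      intro s f
      exact map_sum (QuotientAddGroup.mk' (AddSubgroup.zmultiples (1 : ℝ))) f s
    rw [h6]
    apply sum_congr rfl
    intro k _
    rw [eval_mul, eval_C, descPochhammer_eval_eq_descFactorial, Nat.descFactorial_eq_factorial_mul_choose]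
    have h7 : c k / (k.factorial : ℝ) * ((k.factorial * n.choose k : ℕ) : ℝ) = n.choose k • c k := by
      have : (k.factorial : ℝ) ≠ 0 := by exact_mod_cast k.factorial_ne_zero
      push_cast
      rw [nsmul_eq_mul]
      field_simp
    rw [h7]
    have h8 : ((n.choose k • c k : ℝ) : UnitAddCircle) = n.choose k • ((c k : ℝ) : UnitAddCircle) :=
      map_nsmul (QuotientAddGroup.mk' (AddSubgroup.zmultiples (1 : ℝ))) _ _
    rw [h8, hc]
    simp only
    rw [hlift]

end Pool.Agent.R509.PP
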