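import Pool.Agent.R509.PP.StepB

/-!
Library R509.PP (helper509): the induction on the degrees, conclusion.
-/

set_option autoImplicit false

namespace Pool.Agent.R509.PP

open Finset MeasureTheory Polynomial Filter
open Pool.Agent.R509.CD
open Pool.Agent.R509.HK (Gf Gf_nonneg)

lemma const_poly (P : ℝ[X]) (h : P.natDegree = 0) (x : ℝ) : P.eval x = P.eval 0 := by
  rw [eq_C_of_natDegree_eq_zero h]; simp

/-- constant orbits -/
lemma tt_zero {m : ℕ} (e : Fin m → ℕ) (he : ∀ i, e i = 0) (F : C(Fin m → UnitAddCircle, ℂ)) (M A κ : ℝ) (hM : ∀ x, ‖F x‖ ≤ M)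
    (hA : Dev F A) (hκ : 0 < κ) : TT m e F M A κ := by
  have hM0 : 0 ≤ M := (norm_nonneg _).trans (hM 0)
  have hA0 := Dev_nonneg F A hA
  unfold TT
  filter_upwards [eventually_ge_atTop 1] with r₁ hr L hL
  obtain ⟨K₀, hK₀⟩ := exists_nat_ge (2 * M * L / κ)
  filter_upwards [eventually_ge_atTop K₀] with K hK σ g P hσ0 hσ1 hg hP
  have hKr : (K₀ : ℝ) ≤ K := by exact_mod_cast hK
  have hMK : 2 * M * L ≤ κ * K := by
    have h1 := hK₀.trans hKr
    rw [div_le_iff₀ hκ] at h1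
    linarith
  have h1 : ∀ k : ℕ, (pt fun i => (P i).eval (k : ℝ)) = pt fun i => (P i).eval 0 := by
    intro k
    congr 1
    funext i
    exact const_poly _ (Nat.le_zero.1 ((hP i).trans (le_of_eq (he i)))) _
  have h2 : ∑ k ∈ range K, (g k : ℂ) * F (pt fun i => (P i).eval (k : ℝ)) = ((∑ k ∈ range K, g k : ℝ) : ℂ) * F (pt fun i => (P i).eval 0) := by
    push_cast
    rw [sum_mul]
    apply sum_congr rfl
    intro k _
    rw [h1 k]
  rw [h2, norm_mul, Complex.norm_real, Real.norm_eq_abs]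
  have h3 := avgG g (fun n => (hg n).trans hσ1) r₁ L K hr hL
  have h4 : |∑ k ∈ range K, g k| * ‖F (pt fun i => (P i).eval 0)‖ ≤ (∑ k ∈ range K, Gf g r₁ L k + 2 * L) * M :=
    mul_le_mul h3 (hM _) (norm_nonneg _) ((abs_nonneg _).trans h3)
  have h5 : 0 ≤ A * σ * K := by positivity
  linarith

/-- the induction step -/
lemma tt_step {m : ℕ} (e : Fin m → ℕ) (F : C(Fin m → UnitAddCircle, ℂ)) (M A κ : ℝ) (hM : ∀ x, ‖F x‖ ≤ M)
    (hA : Dev F A) (hκ : 0 < κ)
    (IH : ∀ s, e s ≠ 0 → ∀ F' : C(Fin m → UnitAddCircle, ℂ), (∀ x, ‖F' x‖ ≤ M) → Dev F' A → ∀ κ' : ℝ, 0 < κ' →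
      TT m (Function.update e s (e s - 1)) F' M A κ') : TT m e F M A κ := by
  classical
  have hM0 : 0 ≤ M := (norm_nonneg _).trans (hM 0)
  have hA0 := Dev_nonneg F A hA
  obtain ⟨𝒦, δ, hδ, hequi⟩ := equi_dv F M hM (κ / 2) (by positivity)
  -- Weyl sums
  have hW : ∀ i : Fin m, ∃ W : ℝ, 1 ≤ W ∧ (e i ≠ 0 → ∀ (K : ℕ) (φ : ℝ[X]), 1 ≤ K → φ.natDegree ≤ e i →
      δ * K < ‖∑ n ∈ range K, E (φ.eval (n : ℝ))‖ →
      ∃ q : ℕ, 1 ≤ q ∧ (q : ℝ) ≤ W ∧ ∃ a : ℤ, |q * (((e i).factorial : ℝ) * φ.coeff (e i)) - a| ≤ W / (K : ℝ) ^ (e i)) := by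
    intro i
    by_cases h : e i = 0
    · exact ⟨1, le_rfl, fun h' => absurd h h'⟩
    · obtain ⟨W, hW1, hW2⟩ := weyl_inv (e i) (Nat.one_le_iff_ne_zero.2 h) δ hδ
      exact ⟨W, hW1, fun _ => hW2⟩
  choose W hW1 hW2 using hW
  set Wm : ℝ := ∑ i, W i with hWm
  have hWle : ∀ i, W i ≤ Wm := fun i => single_le_sum (f := W) (fun j _ => zero_le_one.trans (hW1 j)) (mem_univ i)
  have hWm0 : 0 ≤ Wm := sum_nonneg fun i _ => zero_le_one.trans (hW1 i)
  -- the bound for the differences of the progressions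
  set Q : ℕ := ⌈Wm⌉₊ * (∑ i, (e i).factorial) * (∑ k ∈ 𝒦, ∑ i, (k i).natAbs) with hQ
  have hQle : ∀ k ∈ 𝒦, ∀ s : Fin m, ∀ q : ℕ, (q : ℝ) ≤ W s → q * (e s).factorial * (k s).natAbs ≤ Q := by
    intro k hk s q hq
    rw [hQ]
    apply Nat.mul_le_mul
    · apply Nat.mul_le_mul
      · have h1 : (q : ℝ) ≤ (⌈Wm⌉₊ : ℝ) := (hq.trans (hWle s)).trans (Nat.le_ceil _)
        exact_mod_cast h1
      · exact single_le_sum (f := fun i => (e i).factorial) (fun _ _ => Nat.zero_le _) (mem_univ s)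
    · exact (single_le_sum (f := fun i => (k i).natAbs) (fun _ _ => Nat.zero_le _) (mem_univ s)).trans
        (single_le_sum (f := fun k : Fin m → ℤ => ∑ i, (k i).natAbs) (fun _ _ => Nat.zero_le _) hk)
  set T : ℕ := ∑ i, e i with hT
  have heT : ∀ s, e s ≤ T := fun s => single_le_sum (f := e) (fun _ _ => Nat.zero_le _) (mem_univ s)
  -- uniform continuity
  obtain ⟨ρ, hρ0, hρ⟩ := Metric.uniformContinuous_iff.1 (CompactSpace.uniformContinuous_of_continuous F.continuous) (κ / 8) (by positivity)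
  -- the length of the progressions
  set η : ℝ := min (κ / (4 * (M * Q + 1))) (ρ / (2 * (Wm * T + 1))) with hη
  have hη0 : 0 < η := lt_min (by positivity) (by positivity)
  have hη1 : M * Q * η ≤ κ / 4 := by
    have h1 : η ≤ κ / (4 * (M * Q + 1)) := min_le_left _ _
    have h2 : M * Q * η ≤ M * Q * (κ / (4 * (M * Q + 1))) := mul_le_mul_of_nonneg_left h1 (by positivity)
    refine h2.trans ?_
    rw [mul_div_assoc', div_le_div_iff₀ (by positivity) (by norm_num)]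
    nlinarith
  have hη2 : Wm * T * η < ρ := by
    have h1 : η ≤ ρ / (2 * (Wm * T + 1)) := min_le_right _ _
    have h2 : Wm * T * η ≤ Wm * T * (ρ / (2 * (Wm * T + 1))) := mul_le_mul_of_nonneg_left h1 (by positivity)
    refine lt_of_le_of_lt h2 ?_
    rw [mul_div_assoc', div_lt_iff₀ (by positivity)]
    nlinarith [mul_nonneg hWm0 (Nat.cast_nonneg T : (0 : ℝ) ≤ T)]
  -- the induction hypothesis, uniformly
  have hIH : ∀ᶠ r₂ : ℕ in atTop, ∀ p ∈ 𝒦 ×ˢ (univ : Finset (Fin m)), (e p.2 ≠ 0 → ∀ L : ℕ, 1 ≤ L → ∀ᶠ K : ℕ in atTop,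
      ∀ (σ : ℝ) (g : ℕ → ℝ) (P : Fin m → ℝ[X]), 0 ≤ σ → σ ≤ 1 →
      (∀ n, |g n| ≤ σ) → (∀ i, (P i).natDegree ≤ Function.update e p.2 (e p.2 - 1) i) →
      ‖∑ k ∈ range K, (g k : ℂ) * cmp F (chg p.1 p.2) (pt fun i => (P i).eval (k : ℝ))‖ ≤
        A * σ * K + κ / 4 * K + M * ∑ k ∈ range K, Gf g r₂ L k) := by
    rw [eventually_all_finset]
    intro p _
    by_cases h : e p.2 = 0
    · exact Eventually.of_forall fun r h' => absurd h h'
    · have h1 := IH p.2 h (cmp F (chg p.1 p.2)) (fun x => hM _) (Dev_cmp F A hA _) (κ / 4) (by positivity)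
      unfold TT at h1
      filter_upwards [h1] with r hr _
      exact hr
  obtain ⟨r₂, hr₂⟩ := hIH.exists
  unfold TT
  filter_upwards [eventually_ge_atTop (Q * r₂ + 1)] with r₁ hr₁ L hL
  have hIH2 : ∀ᶠ K' : ℕ in atTop, ∀ p ∈ 𝒦 ×ˢ (univ : Finset (Fin m)), (e p.2 ≠ 0 →
      ∀ (σ : ℝ) (g : ℕ → ℝ) (P : Fin m → ℝ[X]), 0 ≤ σ → σ ≤ 1 →
      (∀ n, |g n| ≤ σ) → (∀ i, (P i).natDegree ≤ Function.update e p.2 (e p.2 - 1) i) →
      ‖∑ k ∈ range K', (g k : ℂ) * cmp F (chg p.1 p.2) (pt fun i => (P i).eval (k : ℝ))‖ ≤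
        A * σ * K' + κ / 4 * K' + M * ∑ k ∈ range K', Gf g r₂ L k) := by
    rw [eventually_all_finset]
    intro p hp
    by_cases h : e p.2 = 0
    · exact Eventually.of_forall fun r h' => absurd h h'
    · filter_upwards [hr₂ p hp h L hL] with K hK _
      exact hK
  obtain ⟨K₁, hK₁⟩ := eventually_atTop.1 hIH2
  obtain ⟨K₂, hK₂⟩ := exists_nat_ge ((K₁ + 2) / η)
  obtain ⟨K₃, hK₃⟩ := exists_nat_ge (4 * M * L / κ)
  filter_upwards [eventually_ge_atTop (K₂ + K₃ + 1)] with K hK σ g P hσ0 hσ1 hg hP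
  have hK1 : 1 ≤ K := by omega
  have hK0 : (0 : ℝ) < K := by exact_mod_cast hK1
  set z : ℕ → Fin m → UnitAddCircle := fun n => pt fun i => (P i).eval (n : ℝ) with hz
  change ‖∑ k ∈ range K, (g k : ℂ) * F (z k)‖ ≤ _
  set I : Finset (Fin m) := univ.filter fun i => e i ≠ 0 with hI
  have hmem : ∀ i, i ∈ I ↔ e i ≠ 0 := by intro i; rw [hI]; simp
  by_cases hcase : ∀ k ∈ 𝒦, (∃ i ∈ I, k i ≠ 0) → ‖∑ n ∈ range K, (UnitAddTorus.mFourier k (z n) : ℂ)‖ ≤ δ * K
  · -- equidistribution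
    refine case_equi F M A κ hM hA 𝒦 δ hequi I z (z 0) ?_ K hcase r₁ L (by omega) hL ?_ σ g hσ0 hσ1 hg hκ
    · intro n i hi
      rw [hmem, not_not] at hi
      rw [hz]
      unfold pt
      simp only
      rw [const_poly (P i) (Nat.le_zero.1 ((hP i).trans (le_of_eq hi))) (n : ℝ), const_poly (P i) (Nat.le_zero.1 ((hP i).trans (le_of_eq hi))) ((0 : ℕ) : ℝ)]
    · have h1 : 4 * M * L / κ ≤ K := hK₃.trans (by exact_mod_cast (by omega : K₃ ≤ K))
      rw [div_le_iff₀ hκ] at h1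
      linarith
  · -- a large Weyl sum
    push Not at hcase
    obtain ⟨k, hk, ⟨i₀, hi₀, hki₀⟩, hlarge⟩ := hcase
    obtain ⟨s, hs, hsmax⟩ := exists_max_image (univ.filter fun i => k i ≠ 0 ∧ e i ≠ 0) e ⟨i₀, by
      rw [mem_filter]; exact ⟨mem_univ _, hki₀, (hmem i₀).1 hi₀⟩⟩
    rw [mem_filter] at hs
    obtain ⟨-, hks, hes⟩ := hs
    have hmax : ∀ i, k i ≠ 0 → e i ≤ e s := by
      intro i hi
      by_cases he : e i = 0
      · omega
      · exact hsmax i (by rw [mem_filter]; exact ⟨mem_univ _, hi, he⟩)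
    set φ : ℝ[X] := ∑ i, C (k i : ℝ) * P i with hφ
    have hφd : φ.natDegree ≤ e s := by
      rw [hφ]
      apply natDegree_sum_le_of_forall_le
      intro i _
      by_cases hki : k i = 0
      · rw [hki]; simp
      · exact (natDegree_C_mul_le _ _).trans ((hP i).trans (hmax i hki))
    have hsum : (∑ n ∈ range K, (UnitAddTorus.mFourier k (z n) : ℂ)) = ∑ n ∈ range K, E (φ.eval (n : ℝ)) := by
      apply sum_congr rfl
      intro n _
      rw [hz]
      simp only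
      rw [mF_pt, hφ, eval_finsetSum]
      simp only [eval_mul, eval_C]
    rw [hsum] at hlarge
    obtain ⟨q, hq1, hq2, a, ha⟩ := hW2 s hes K φ hK1 hφd hlarge
    set q' : ℕ := q * (e s).factorial * (k s).natAbs with hq'
    have hq'1 : 1 ≤ q' := Nat.mul_pos (Nat.mul_pos hq1 (Nat.factorial_pos _)) (Int.natAbs_pos.2 hks)
    have hq'Q : q' ≤ Q := hQle k hk s q hq2
    set K' : ℕ := ⌊η * K⌋₊ with hK'
    have hK'le : (K' : ℝ) ≤ η * K := Nat.floor_le (by positivity)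
    have hηK : (K₁ : ℝ) + 2 ≤ η * K := by
      have h1 : ((K₁ : ℝ) + 2) / η ≤ K := hK₂.trans (by exact_mod_cast (by omega : K₂ ≤ K))
      rw [div_le_iff₀ hη0] at h1
      linarith
    have hK'1 : K₁ + 1 ≤ K' := by
      apply Nat.le_floor
      push_cast
      linarith
    have hp : (k, s) ∈ 𝒦 ×ˢ (univ : Finset (Fin m)) := mem_product.2 ⟨hk, mem_univ _⟩
    refine case_prog F (cmp F (chg k s)) M A κ hM hA0 hκ z K K' q' r₁ r₂ L (by omega) hq'1 ?_ ?_
      (Function.update e s (e s - 1)) (hK₁ K' (by omega) (k, s) hp hes) ?_ σ g hσ0 hσ1 hg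
    · exact (Nat.mul_le_mul_right r₂ hq'Q).trans (by omega)
    · have h1 : (q' : ℝ) ≤ Q := by exact_mod_cast hq'Q
      calc M * (q' * K') ≤ M * (Q * (η * K)) := by
            apply mul_le_mul_of_nonneg_left _ hM0
            exact mul_le_mul h1 hK'le (Nat.cast_nonneg _) (Nat.cast_nonneg _)
        _ = M * Q * η * K := by ring
        _ ≤ κ / 4 * K := mul_le_mul_of_nonneg_right hη1 hK0.le
    · intro n hn
      have hWs : |q * (((e s).factorial : ℝ) * (∑ i, C (k i : ℝ) * P i).coeff (e s)) - a| ≤ Wm / (K : ℝ) ^ (e s) :=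
        ha.trans (div_le_div_of_nonneg_right (hWle s) (by positivity))
      obtain ⟨P', hP'1, hP'2⟩ := ap_near e k s hes hks hmax P hP K hK1 Wm q hq1 a hWs n K' hn
      refine ⟨P', hP'1, fun j hj => ?_⟩
      have h1 := hP'2 j hj
      have h2 : Wm * e s * K' / K < ρ := by
        rw [div_lt_iff₀ hK0]
        have h3 : ((e s : ℕ) : ℝ) ≤ T := by exact_mod_cast heT s
        calc Wm * e s * K' ≤ Wm * T * (η * K) :=
              mul_le_mul (mul_le_mul_of_nonneg_left h3 hWm0) hK'le (Nat.cast_nonneg _) (by positivity)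
          _ = Wm * T * η * K := by ring
          _ < ρ * K := mul_lt_mul_of_pos_right hη2 hK0
      have h3 := hρ (lt_of_le_of_lt h1 h2)
      rw [dist_eq_norm] at h3
      rw [cmp_apply]
      exact h3.le

/-- **sums along polynomial orbits on tori** -/
theorem tt_all (m : ℕ) : ∀ (T : ℕ) (e : Fin m → ℕ), ∑ i, e i = T → ∀ (F : C(Fin m → UnitAddCircle, ℂ)) (M A : ℝ),
    (∀ x, ‖F x‖ ≤ M) → Dev F A → ∀ κ : ℝ, 0 < κ → TT m e F M A κ := by
  classical
  intro T
  induction T with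
  | zero =>
    intro e he F M A hM hA κ hκ
    exact tt_zero e (fun i => (sum_eq_zero_iff.1 he) i (mem_univ i)) F M A κ hM hA hκ
  | succ T ih =>
    intro e he F M A hM hA κ hκ
    refine tt_step e F M A κ hM hA hκ fun s hs F' hM' hA' κ' hκ' => ih _ ?_ F' M A hM' hA' κ' hκ'
    have h1 : ∑ i, Function.update e s (e s - 1) i = (e s - 1) + ∑ i ∈ univ.erase s, e i := by
      rw [← add_sum_erase univ _ (mem_univ s), Function.update_self]
      congr 1
      apply sum_congr rfl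
      intro i hi
      rw [Function.update_of_ne (ne_of_mem_erase hi)]
    have h2 : ∑ i, e i = e s + ∑ i ∈ univ.erase s, e i := (add_sum_erase univ _ (mem_univ s)).symm
    omega

end Pool.Agent.R509.PP
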