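import Pool.Agent.R509.PP.Expo
import Pool.Agent.R509.PP.StepC
import Pool.Agent.R509.PP.Newton

/-!
Library R509.PP (helper509): functions without atoms in the spectrum, and relative phase polynomials.
-/

set_option autoImplicit false

namespace Pool.Agent.R509.PP

open Finset MeasureTheory Polynomial Filter Topology
open Pool.Agent.R509.CD
open Pool.Agent.R509.HK (Gf Gf_nonneg)

section

variable {Y : Type*} [MeasurableSpace Y]

lemma inv_int {G : Type*} [NormedAddCommGroup G] [NormedSpace ℝ G] (μ : Measure Y) (T : Y → Y) (hT : MeasurePreserving T μ μ)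
    (φ : Y → G) (hφ : AEStronglyMeasurable φ μ) (n : ℕ) : ∫ x, φ (T^[n] x) ∂μ = ∫ x, φ x ∂μ := by
  have h1 := hT.iterate n
  have h2 := integral_map (μ := μ) (φ := T^[n]) h1.measurable.aemeasurable (f := φ) (by rw [h1.map_eq]; exact hφ)
  rw [h1.map_eq] at h2
  exact h2.symm

/-- means along progressions of a function without atoms in the spectrum -/
lemma ap_means (μ : Measure Y) [IsProbabilityMeasure μ] (T : Y → Y) (hT : MeasurePreserving T μ μ) (g : Y → ℝ)
    (hgm : Measurable g) (hg1 : ∀ x, |g x| ≤ 1)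
    (hc : Tendsto (fun H : ℕ => (1 / (H : ℝ)) * ∑ h ∈ range H, |∫ x, g x * g (T^[h + 1] x) ∂μ|) atTop (𝓝 0))
    (r : ℕ) (hr : 1 ≤ r) (ε : ℝ) (hε : 0 < ε) :
    ∀ᶠ L : ℕ in atTop, ∫ x, |∑ j ∈ range L, g (T^[r * j] x)| / L ∂μ ≤ ε := by
  have hr0 : (0 : ℝ) < r := by exact_mod_cast hr
  have hTn : ∀ n : ℕ, Measurable (T^[n]) := fun n => (hT.iterate n).measurable
  have hgn : ∀ n : ℕ, Measurable fun x => g (T^[n] x) := fun n => hgm.comp (hTn n)
  -- correlations
  set c : ℕ → ℝ := fun h => ∫ x, g x * g (T^[h] x) ∂μ with hcd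
  have hint : ∀ i j : ℕ, Integrable (fun x => g (T^[i] x) * g (T^[j] x)) μ := by
    intro i j
    refine Integrable.of_bound ((hgn i).mul (hgn j)).aestronglyMeasurable 1 (Filter.Eventually.of_forall fun x => ?_)
    rw [Real.norm_eq_abs, abs_mul]
    exact mul_le_one₀ (hg1 _) (abs_nonneg _) (hg1 _)
  have hcorr : ∀ i h : ℕ, ∫ x, g (T^[i] x) * g (T^[h + i] x) ∂μ = c h := by
    intro i h
    have h1 := inv_int μ T hT (fun x => g x * g (T^[h] x)) (hgm.mul (hgn h)).aestronglyMeasurable i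
    simp only [← Function.iterate_add_apply] at h1
    exact h1
  have hc1 : ∀ h, |c h| ≤ 1 := by
    intro h
    have h1 := norm_integral_le_of_norm_le_const (μ := μ) (f := fun x => g x * g (T^[h] x)) (C := 1)
      (Filter.Eventually.of_forall fun x => by
        rw [Real.norm_eq_abs, abs_mul]
        exact mul_le_one₀ (hg1 _) (abs_nonneg _) (hg1 _))
    simpa using h1
  set D : ℕ → ℝ := fun L => ∑ h ∈ range (r * L), |c (h + 1)| with hD
  have hD0 : ∀ L, 0 ≤ D L := fun L => sum_nonneg fun _ _ => abs_nonneg _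
  -- sums over progressions
  have hsub : ∀ L : ℕ, ∑ t ∈ range L, |c (r * t)| ≤ 1 + D L := by
    intro L
    rcases Nat.eq_zero_or_pos L with hL | hL
    · subst hL
      simp only [range_zero, sum_empty]
      have := hD0 0
      linarith
    obtain ⟨L', rfl⟩ : ∃ L', L = L' + 1 := ⟨L - 1, by omega⟩
    rw [sum_range_succ', mul_zero, add_comm]
    apply add_le_add (hc1 0)
    simp only [hD]
    have hinj : Set.InjOn (fun t : ℕ => r * (t + 1) - 1) (range L' : Set ℕ) := by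
      intro a _ b _ hab
      simp only at hab
      have h1 : 1 ≤ r * (a + 1) := Nat.mul_pos hr (Nat.succ_pos a)
      have h2 : 1 ≤ r * (b + 1) := Nat.mul_pos hr (Nat.succ_pos b)
      have h3 : r * (a + 1) = r * (b + 1) := by omega
      have h4 := Nat.eq_of_mul_eq_mul_left hr h3
      omega
    have h1 : ∑ t ∈ range L', |c (r * (t + 1))| = ∑ h ∈ (range L').image (fun t => r * (t + 1) - 1), |c (h + 1)| := by
      rw [sum_image hinj]
      apply sum_congr rfl
      intro t _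
      have h1 : 1 ≤ r * (t + 1) := Nat.mul_pos hr (Nat.succ_pos t)
      rw [Nat.sub_add_cancel h1]
    rw [h1]
    apply sum_le_sum_of_subset_of_nonneg
    · intro h hh
      rw [mem_image] at hh
      obtain ⟨t, ht, rfl⟩ := hh
      rw [mem_range] at ht ⊢
      have h1 : 1 ≤ r * (t + 1) := Nat.mul_pos hr (Nat.succ_pos t)
      have h2 : r * (t + 1) ≤ r * (L' + 1) := Nat.mul_le_mul_left _ (by omega)
      omega
    · intro _ _ _
      exact abs_nonneg _
  -- the second moment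
  have hsq : ∀ L : ℕ, ∫ x, (∑ j ∈ range L, g (T^[r * j] x)) ^ 2 ∂μ ≤ 2 * L * (1 + D L) := by
    intro L
    have h1 : ∀ x, (∑ j ∈ range L, g (T^[r * j] x)) ^ 2 = ∑ j ∈ range L, ∑ l ∈ range L, g (T^[r * j] x) * g (T^[r * l] x) := by
      intro x
      rw [sq, sum_mul_sum]
    simp_rw [h1]
    rw [integral_finsetSum _ (fun j _ => integrable_finsetSum _ fun l _ => hint _ _)]
    have h2 : ∀ j ∈ range L, ∫ x, ∑ l ∈ range L, g (T^[r * j] x) * g (T^[r * l] x) ∂μ ≤ 2 * (1 + D L) := by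
      intro j hj
      rw [mem_range] at hj
      rw [integral_finsetSum _ (fun l _ => hint _ _)]
      have h3 : ∀ l : ℕ, j ≤ l → ∫ x, g (T^[r * j] x) * g (T^[r * l] x) ∂μ ≤ |c (r * (l - j))| := by
        intro l hl
        have h4 := hcorr (r * j) (r * (l - j))
        have h5 : r * (l - j) + r * j = r * l := by
          rw [← Nat.mul_add, Nat.sub_add_cancel hl]
        rw [h5] at h4
        rw [h4]
        exact le_abs_self _
      have h3' : ∀ l : ℕ, l ≤ j → ∫ x, g (T^[r * j] x) * g (T^[r * l] x) ∂μ ≤ |c (r * (j - l))| := by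
        intro l hl
        have h4 := hcorr (r * l) (r * (j - l))
        have h5 : r * (j - l) + r * l = r * j := by
          rw [← Nat.mul_add, Nat.sub_add_cancel hl]
        rw [h5] at h4
        have h6 : ∫ x, g (T^[r * j] x) * g (T^[r * l] x) ∂μ = ∫ x, g (T^[r * l] x) * g (T^[r * j] x) ∂μ := by
          congr 1
          funext x
          ring
        rw [h6, h4]
        exact le_abs_self _
      have h7 : ∑ l ∈ range L, ∫ x, g (T^[r * j] x) * g (T^[r * l] x) ∂μ ≤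
          ∑ l ∈ range j, |c (r * (j - l))| + ∑ l ∈ range (L - j), |c (r * l)| := by
        rw [← Finset.sum_range_add_sum_Ico _ hj.le, sum_Ico_eq_sum_range]
        apply add_le_add
        · apply sum_le_sum
          intro l hl
          exact h3' l (mem_range.1 hl).le
        · apply sum_le_sum
          intro l _
          refine (h3 (j + l) (Nat.le_add_right _ _)).trans ?_
          rw [Nat.add_sub_cancel_left]
      have h8 : ∑ l ∈ range j, |c (r * (j - l))| ≤ 1 + D L := by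
        refine le_trans ?_ (hsub L)
        have h9 : ∑ l ∈ range j, |c (r * (j - l))| = ∑ l ∈ range j, |c (r * (l + 1))| := by
          rw [← sum_range_reflect (fun l => |c (r * (l + 1))|)]
          apply sum_congr rfl
          intro l hl
          rw [mem_range] at hl
          congr 3
          omega
        rw [h9]
        have h10 : ∑ l ∈ range j, |c (r * (l + 1))| ≤ ∑ l ∈ range (j + 1), |c (r * l)| := by
          rw [sum_range_succ']
          have := abs_nonneg (c (r * 0))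
          linarith
        refine h10.trans ?_
        exact sum_le_sum_of_subset_of_nonneg (range_subset_range.2 (by omega)) fun _ _ _ => abs_nonneg _
      have h11 : ∑ l ∈ range (L - j), |c (r * l)| ≤ 1 + D L :=
        (sum_le_sum_of_subset_of_nonneg (range_subset_range.2 (by omega)) fun _ _ _ => abs_nonneg _).trans (hsub L)
      linarith
    refine (sum_le_sum h2).trans ?_
    rw [sum_const, card_range, nsmul_eq_mul]
    apply le_of_eq
    ring
  -- conclusion
  have hDt : Tendsto (fun L : ℕ => D L / L) atTop (𝓝 0) := by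
    have h1 : Tendsto (fun L : ℕ => r * L) atTop atTop := tendsto_id.const_mul_atTop' (by omega)
    have h2 := (hc.comp h1).const_mul (r : ℝ)
    rw [mul_zero] at h2
    refine h2.congr' ?_
    filter_upwards [eventually_ge_atTop 1] with L hL
    have hL0 : (0 : ℝ) < L := by exact_mod_cast hL
    simp only [Function.comp_def, hD]
    push_cast
    field_simp
    rfl
  have hlim : Tendsto (fun L : ℕ => 2 * (1 / (L : ℝ) + D L / L)) atTop (𝓝 0) := by
    have h1 := ((tendsto_one_div_atTop_nhds_zero_nat (𝕜 := ℝ)).add hDt).const_mul 2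
    simpa using h1
  filter_upwards [hlim.eventually_lt_const (show (0 : ℝ) < ε ^ 2 by positivity), eventually_ge_atTop 1] with L h1 hL
  have hL0 : (0 : ℝ) < L := by exact_mod_cast hL
  set f : Y → ℝ := fun x => |∑ j ∈ range L, g (T^[r * j] x)| / L with hf
  have hfm : Measurable f := by
    have : Measurable fun x => ∑ j ∈ range L, g (T^[r * j] x) := Finset.measurable_sum _ fun j _ => hgn _
    exact this.abs.div_const _
  have hf0 : ∀ x, 0 ≤ f x := fun x => by positivity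
  have hf1 : ∀ x, f x ≤ 1 := by
    intro x
    rw [hf]
    simp only
    rw [div_le_one hL0]
    refine (abs_sum_le_sum_abs _ _).trans ?_
    refine (sum_le_sum fun j _ => hg1 _).trans ?_
    simp
  have hfi : Integrable f μ := Integrable.of_bound hfm.aestronglyMeasurable 1
    (Filter.Eventually.of_forall fun x => by rw [Real.norm_eq_abs, abs_of_nonneg (hf0 x)]; exact hf1 x)
  have hf2i : Integrable (fun x => f x ^ 2) μ := Integrable.of_bound (hfm.pow_const 2).aestronglyMeasurable 1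
    (Filter.Eventually.of_forall fun x => by
      rw [Real.norm_eq_abs, abs_of_nonneg (sq_nonneg _)]
      exact pow_le_one₀ (hf0 x) (hf1 x))
  have h2 : ∫ x, f x ^ 2 ∂μ ≤ ε ^ 2 := by
    have h3 : ∀ x, f x ^ 2 = (1 / (L : ℝ) ^ 2) * (∑ j ∈ range L, g (T^[r * j] x)) ^ 2 := by
      intro x
      rw [hf]
      simp only
      rw [div_pow, sq_abs]
      ring
    simp_rw [h3]
    rw [integral_const_mul]
    refine (mul_le_mul_of_nonneg_left (hsq L) (by positivity)).trans (le_trans (le_of_eq ?_) h1.le)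
    field_simp
  -- Cauchy-Schwarz through the variance
  have h3 : 0 ≤ ∫ x, (f x - ∫ y, f y ∂μ) ^ 2 ∂μ := integral_nonneg fun x => sq_nonneg _
  have h4 : ∫ x, (f x - ∫ y, f y ∂μ) ^ 2 ∂μ = ∫ x, f x ^ 2 ∂μ - (∫ y, f y ∂μ) ^ 2 := by
    set a := ∫ y, f y ∂μ with ha
    have h5 : ∀ x, (f x - a) ^ 2 = f x ^ 2 - 2 * a * f x + a ^ 2 := fun x => by ring
    simp_rw [h5]
    have e1 : ∫ x, (f x ^ 2 - 2 * a * f x + a ^ 2) ∂μ = ∫ x, (f x ^ 2 - 2 * a * f x) ∂μ + ∫ _x, a ^ 2 ∂μ :=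
      integral_add (hf2i.sub (hfi.const_mul _)) (integrable_const _)
    have e2 : ∫ x, (f x ^ 2 - 2 * a * f x) ∂μ = ∫ x, f x ^ 2 ∂μ - ∫ x, 2 * a * f x ∂μ :=
      integral_sub hf2i (hfi.const_mul _)
    rw [e1, e2, integral_const_mul]
    simp only [integral_const, probReal_univ, smul_eq_mul, one_mul]
    rw [← ha]
    ring
  have h5 : (∫ y, f y ∂μ) ^ 2 ≤ ε ^ 2 := by linarith
  exact le_of_sq_le_sq h5 hε.le

/-- the points whose orbit is polynomial of degree at most `d` -/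
def SD {m : ℕ} (T : Y → Y) (φ : Y → Fin m → UnitAddCircle) (d : ℕ) : Set Y :=
  {x | ∀ (i : Fin m) (n : ℕ), ∑ k ∈ range (d + 2), ((-1 : ℤ) ^ (d + 1 - k) * ((d + 1).choose k : ℤ)) • φ (T^[n + k] x) i = 0}

lemma mem_SD {m : ℕ} (T : Y → Y) (φ : Y → Fin m → UnitAddCircle) (d : ℕ) (x : Y) :
    x ∈ SD T φ d ↔ ∃ P : Fin m → ℝ[X], (∀ i, (P i).natDegree ≤ d) ∧ ∀ n : ℕ, φ (T^[n] x) = pt fun i => (P i).eval (n : ℝ) := by
  constructor
  · intro h
    have h1 := fun i => poly_of_diff (fun n => φ (T^[n] x) i) d (fun n => h i n)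
    choose P hP1 hP2 using h1
    refine ⟨P, hP1, fun n => ?_⟩
    funext i
    exact hP2 i n
  · rintro ⟨P, hP1, hP2⟩ i n
    exact diff_of_poly (P i) d (hP1 i) (fun n => φ (T^[n] x) i) (fun n => by rw [hP2 n]; rfl) n

lemma meas_SD {m : ℕ} (T : Y → Y) (hT : ∀ n : ℕ, Measurable (T^[n])) (φ : Y → Fin m → UnitAddCircle) (hφ : Measurable φ) (d : ℕ) :
    MeasurableSet (SD T φ d) := by
  have : SD T φ d = ⋂ (i : Fin m), ⋂ (n : ℕ),
      (fun x => ∑ k ∈ range (d + 2), ((-1 : ℤ) ^ (d + 1 - k) * ((d + 1).choose k : ℤ)) • φ (T^[n + k] x) i) ⁻¹' {0} := by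
    ext x
    simp only [SD, Set.mem_iInter, Set.mem_preimage, Set.mem_singleton_iff]
    rfl
  rw [this]
  refine MeasurableSet.iInter fun i => MeasurableSet.iInter fun n => ?_
  refine MeasurableSet.preimage (measurableSet_singleton 0) ?_
  refine Finset.measurable_sum _ fun k _ => ?_
  exact (continuous_zsmul _).measurable.comp ((measurable_pi_apply i).comp (hφ.comp (hT (n + k))))

/-- **functions without atoms in the spectrum and relative phase polynomials** -/
theorem abs_main (μ : Measure Y) [IsProbabilityMeasure μ] (T : Y → Y) (hT : MeasurePreserving T μ μ) (g : Y → ℝ)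
    (hgm : Measurable g) (hg1 : ∀ x, |g x| ≤ 1)
    (hc : Tendsto (fun H : ℕ => (1 / (H : ℝ)) * ∑ h ∈ range H, |∫ x, g x * g (T^[h + 1] x) ∂μ|) atTop (𝓝 0))
    (w : Y → ℝ) (hwm : Measurable w) (hw0 : ∀ x, 0 ≤ w x) (hw1 : ∀ x, w x ≤ 1) (hw : ∀ᵐ x ∂μ, ∀ n : ℕ, w (T^[n] x) = w x)
    (m : ℕ) (φ : Y → Fin m → UnitAddCircle) (hφ : Measurable φ)
    (hP : ∀ᵐ x ∂μ, ∃ P : Fin m → ℝ[X], ∀ n : ℕ, φ (T^[n] x) = pt fun i => (P i).eval (n : ℝ))
    (F : C(Fin m → UnitAddCircle, ℂ)) (A : ℝ) (hA : Dev F A) :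
    ‖∫ x, (w x : ℂ) * ((g x : ℂ) * F (φ x)) ∂μ‖ ≤ A * ∫ x, w x ∂μ := by
  have hA0 := Dev_nonneg F A hA
  have hTn : ∀ n : ℕ, Measurable (T^[n]) := fun n => (hT.iterate n).measurable
  have hgn : ∀ n : ℕ, Measurable fun x => g (T^[n] x) := fun n => hgm.comp (hTn n)
  have hM : ∀ x, ‖F x‖ ≤ ‖F‖ := fun x => F.norm_coe_le_norm x
  have hFm : Measurable fun x => (w x : ℂ) * ((g x : ℂ) * F (φ x)) :=
    (Complex.measurable_ofReal.comp hwm).mul ((Complex.measurable_ofReal.comp hgm).mul (F.continuous.measurable.comp hφ))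
  have hFb : ∀ x, ‖(w x : ℂ) * ((g x : ℂ) * F (φ x))‖ ≤ ‖F‖ := by
    intro x
    rw [norm_mul, norm_mul, Complex.norm_real, Complex.norm_real, Real.norm_eq_abs, Real.norm_eq_abs, abs_of_nonneg (hw0 x)]
    have h1 := mul_le_mul (hg1 x) (hM (φ x)) (norm_nonneg _) zero_le_one
    have h2 : 0 ≤ |g x| * ‖F (φ x)‖ := by positivity
    have h3 := mul_le_mul (hw1 x) h1 h2 zero_le_one
    linarith
  have hwi : Integrable w μ := Integrable.of_bound hwm.aestronglyMeasurable 1
    (Filter.Eventually.of_forall fun x => by rw [Real.norm_eq_abs, abs_of_nonneg (hw0 x)]; exact hw1 x)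
  have hwint : ∫ x, w x ∂μ ≤ 1 := by
    have h1 := integral_mono hwi (integrable_const (1 : ℝ)) hw1
    simpa using h1
  have hwint0 : 0 ≤ ∫ x, w x ∂μ := integral_nonneg hw0
  refine le_of_forall_pos_le_add fun κ hκ => ?_
  -- the degree
  have hSm : ∀ d : ℕ, MeasurableSet (SD T φ d) := fun d => meas_SD T hTn φ hφ d
  obtain ⟨d, hd⟩ : ∃ d : ℕ, ‖F‖ * μ.real (SD T φ d)ᶜ ≤ κ / 2 := by
    have hanti : Antitone fun d : ℕ => (SD T φ d)ᶜ := by
      intro d d' hdd x hx hx'
      apply hx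
      rw [mem_SD] at hx' ⊢
      obtain ⟨P, hP1, hP2⟩ := hx'
      exact ⟨P, fun i => (hP1 i).trans hdd, hP2⟩
    have h1 := tendsto_measure_iInter_atTop (μ := μ) (fun d => (hSm d).compl.nullMeasurableSet) hanti ⟨0, measure_ne_top _ _⟩
    have h2 : μ (⋂ d, (SD T φ d)ᶜ) = 0 := by
      rw [← nonpos_iff_eq_zero]
      have h3 : μ {x | ¬ ∃ P : Fin m → ℝ[X], ∀ n : ℕ, φ (T^[n] x) = pt fun i => (P i).eval (n : ℝ)} = 0 := hP
      rw [← h3]
      apply measure_mono
      intro x hx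
      rintro ⟨P, hP'⟩
      rw [Set.mem_iInter] at hx
      apply hx (∑ i, (P i).natDegree)
      rw [mem_SD]
      exact ⟨P, fun i => single_le_sum (f := fun i => (P i).natDegree) (fun _ _ => Nat.zero_le _) (mem_univ i), hP'⟩
    rw [h2] at h1
    have h4 := ((ENNReal.tendsto_toReal ENNReal.zero_ne_top).comp h1).const_mul ‖F‖
    simp only [ENNReal.toReal_zero, mul_zero] at h4
    exact ((h4.eventually_le_const (show (0 : ℝ) < κ / 2 by positivity))).exists
  have htt := tt_all m (∑ _i : Fin m, d) (fun _ => d) rfl F ‖F‖ A hM hA (κ / 4) (by positivity)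
  obtain ⟨r₁, hr₁, hr⟩ := (htt.and (eventually_ge_atTop 1)).exists
  have hr0 : (0 : ℝ) < r₁ := by exact_mod_cast hr
  set ε : ℝ := κ / (4 * r₁ * (‖F‖ + 1)) with hε
  have hε0 : 0 < ε := by positivity
  have hL : ∀ᶠ L : ℕ in atTop, ∀ r ∈ Icc 1 r₁, ∫ x, |∑ j ∈ range L, g (T^[r * j] x)| / L ∂μ ≤ ε := by
    rw [Filter.eventually_all_finset]
    intro r hr'
    exact ap_means μ T hT g hgm hg1 hc r (mem_Icc.1 hr').1 ε hε0
  obtain ⟨L, hL, hL1⟩ := (hL.and (eventually_ge_atTop 1)).exists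
  obtain ⟨K, hK, hK1⟩ := ((hr₁ L hL1).and (eventually_ge_atTop 1)).exists
  have hK0 : (0 : ℝ) < K := by exact_mod_cast hK1
  have hL0 : (0 : ℝ) < L := by exact_mod_cast hL1
  set B : Y → ℝ := (SD T φ d)ᶜ.indicator (fun _ => (1 : ℝ)) with hB
  have hB0 : ∀ x, 0 ≤ B x := fun x => Set.indicator_nonneg (fun _ _ => zero_le_one) x
  have hBm : Measurable B := measurable_const.indicator (hSm d).compl
  have hB1 : ∀ x, B x ≤ 1 := fun x => Set.indicator_le_self' (fun _ _ => zero_le_one) x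
  have hBi : Integrable B μ := Integrable.of_bound hBm.aestronglyMeasurable 1
    (Filter.Eventually.of_forall fun x => by rw [Real.norm_eq_abs, abs_of_nonneg (hB0 x)]; exact hB1 x)
  have hBint : ∫ x, B x ∂μ = μ.real (SD T φ d)ᶜ := by
    rw [hB, integral_indicator_const _ (hSm d).compl, smul_eq_mul, mul_one]
  -- the sum over an orbit
  have hGnn : ∀ x, 0 ≤ ∑ k ∈ range K, Gf (fun n => g (T^[n] x)) r₁ L k := fun x => sum_nonneg fun k _ => Gf_nonneg _ _ _ _
  have hae : ∀ᵐ x ∂μ, ‖∑ k ∈ range K, (w (T^[k] x) : ℂ) * ((g (T^[k] x) : ℂ) * F (φ (T^[k] x)))‖ ≤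
      (A + κ / 4) * K * w x + ‖F‖ * ∑ k ∈ range K, Gf (fun n => g (T^[n] x)) r₁ L k + ‖F‖ * K * B x := by
    filter_upwards [hw] with x hwx
    have e1 : ∑ k ∈ range K, (w (T^[k] x) : ℂ) * ((g (T^[k] x) : ℂ) * F (φ (T^[k] x))) =
        (w x : ℂ) * ∑ k ∈ range K, ((g (T^[k] x) : ℂ) * F (φ (T^[k] x))) := by
      rw [mul_sum]
      apply sum_congr rfl
      intro k _
      rw [hwx k]
    rw [e1, norm_mul, Complex.norm_real, Real.norm_eq_abs, abs_of_nonneg (hw0 x)]
    by_cases hx : x ∈ SD T φ d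
    · obtain ⟨P, hP1, hP2⟩ := (mem_SD T φ d x).1 hx
      have h1 := hK 1 (fun n => g (T^[n] x)) P zero_le_one le_rfl (fun n => hg1 _) hP1
      simp only [← hP2] at h1
      have h2 := mul_le_mul_of_nonneg_left h1 (hw0 x)
      have h3 : w x * (‖F‖ * ∑ k ∈ range K, Gf (fun n => g (T^[n] x)) r₁ L k) ≤ 1 * (‖F‖ * ∑ k ∈ range K, Gf (fun n => g (T^[n] x)) r₁ L k) :=
        mul_le_mul_of_nonneg_right (hw1 x) (mul_nonneg (norm_nonneg _) (hGnn x))
      have h4 : 0 ≤ ‖F‖ * K * B x := mul_nonneg (by positivity) (hB0 x)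
      have e2 : w x * (A * 1 * K + κ / 4 * K + ‖F‖ * ∑ k ∈ range K, Gf (fun n => g (T^[n] x)) r₁ L k) =
        (A + κ / 4) * K * w x + w x * (‖F‖ * ∑ k ∈ range K, Gf (fun n => g (T^[n] x)) r₁ L k) := by ring
      rw [e2] at h2
      linarith
    · have hBx : B x = 1 := by
        rw [hB]
        exact Set.indicator_of_mem hx _
      have h1 : ‖∑ k ∈ range K, ((g (T^[k] x) : ℂ) * F (φ (T^[k] x)))‖ ≤ ‖F‖ * K := by
        refine (norm_sum_le _ _).trans ?_
        have h2 : ∀ k ∈ range K, ‖(g (T^[k] x) : ℂ) * F (φ (T^[k] x))‖ ≤ ‖F‖ := by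
          intro k _
          rw [norm_mul, Complex.norm_real, Real.norm_eq_abs]
          have h1 := mul_le_mul (hg1 (T^[k] x)) (hM (φ (T^[k] x))) (norm_nonneg _) zero_le_one
          linarith
        refine (sum_le_sum h2).trans ?_
        rw [sum_const, card_range, nsmul_eq_mul, mul_comm]
      have h2 := mul_le_mul (hw1 x) h1 (norm_nonneg _) zero_le_one
      have h3 := mul_nonneg (norm_nonneg F) (hGnn x)
      have h4 : 0 ≤ (A + κ / 4) * K * w x := mul_nonneg (by positivity) (hw0 x)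
      rw [hBx]
      linarith
  have hapm : ∀ r : ℕ, Measurable fun x => |∑ j ∈ range L, g (T^[r * j] x)| / (L : ℝ) := by
    intro r
    have : Measurable fun x => ∑ j ∈ range L, g (T^[r * j] x) := Finset.measurable_sum _ fun j _ => hgn _
    exact this.abs.div_const _
  have hap1 : ∀ (r : ℕ) (x : Y), |∑ j ∈ range L, g (T^[r * j] x)| / (L : ℝ) ≤ 1 := by
    intro r x
    rw [div_le_one hL0]
    refine (abs_sum_le_sum_abs _ _).trans ?_
    refine (sum_le_sum fun j _ => hg1 _).trans ?_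
    simp
  have hapi : ∀ r : ℕ, Integrable (fun x => |∑ j ∈ range L, g (T^[r * j] x)| / (L : ℝ)) μ := by
    intro r
    refine Integrable.of_bound (hapm r).aestronglyMeasurable 1 (Filter.Eventually.of_forall fun x => ?_)
    rw [Real.norm_eq_abs, abs_of_nonneg (by positivity)]
    exact hap1 r x
  have hGeq : ∀ (k : ℕ) (x : Y), Gf (fun n => g (T^[n] x)) r₁ L k = ∑ r ∈ Icc 1 r₁, |∑ j ∈ range L, g (T^[r * j] (T^[k] x))| / (L : ℝ) := by
    intro k x
    unfold Gf
    apply sum_congr rfl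
    intro r _
    congr 2
    apply sum_congr rfl
    intro j _
    rw [← Function.iterate_add_apply, add_comm]
  have hcomp : ∀ r k : ℕ, Integrable (fun x => |∑ j ∈ range L, g (T^[r * j] (T^[k] x))| / (L : ℝ)) μ := fun r k =>
    (hT.iterate k).integrable_comp_of_integrable (hapi r)
  have hGint : ∀ k : ℕ, ∫ x, Gf (fun n => g (T^[n] x)) r₁ L k ∂μ ≤ r₁ * ε := by
    intro k
    simp_rw [hGeq k]
    rw [integral_finsetSum _ (fun r _ => hcomp r k)]
    have h1 : ∀ r ∈ Icc 1 r₁, ∫ x, |∑ j ∈ range L, g (T^[r * j] (T^[k] x))| / (L : ℝ) ∂μ ≤ ε := by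
      intro r hr'
      rw [inv_int μ T hT (fun x => |∑ j ∈ range L, g (T^[r * j] x)| / (L : ℝ)) (hapm r).aestronglyMeasurable k]
      exact hL r hr'
    refine (sum_le_sum h1).trans ?_
    rw [sum_const, Nat.card_Icc, Nat.add_sub_cancel, nsmul_eq_mul]
  have hGi : ∀ k : ℕ, Integrable (fun x => Gf (fun n => g (T^[n] x)) r₁ L k) μ := by
    intro k
    simp_rw [hGeq k]
    exact integrable_finsetSum _ fun r _ => hcomp r k
  -- integration
  have hF2 : ∀ k : ℕ, Integrable (fun x => (w (T^[k] x) : ℂ) * ((g (T^[k] x) : ℂ) * F (φ (T^[k] x)))) μ := by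
    intro k
    have h1 : Integrable (fun x => (w x : ℂ) * ((g x : ℂ) * F (φ x))) μ := Integrable.of_bound hFm.aestronglyMeasurable ‖F‖
      (Filter.Eventually.of_forall hFb)
    exact (hT.iterate k).integrable_comp_of_integrable h1
  have h1 : (K : ℂ) * ∫ x, (w x : ℂ) * ((g x : ℂ) * F (φ x)) ∂μ =
      ∫ x, ∑ k ∈ range K, (w (T^[k] x) : ℂ) * ((g (T^[k] x) : ℂ) * F (φ (T^[k] x))) ∂μ := by
    rw [integral_finsetSum _ (fun k _ => hF2 k)]
    have h2 : ∀ k ∈ range K, ∫ x, (w (T^[k] x) : ℂ) * ((g (T^[k] x) : ℂ) * F (φ (T^[k] x))) ∂μ = ∫ x, (w x : ℂ) * ((g x : ℂ) * F (φ x)) ∂μ := by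
      intro k _
      exact inv_int μ T hT (fun x => (w x : ℂ) * ((g x : ℂ) * F (φ x))) hFm.aestronglyMeasurable k
    rw [sum_congr rfl h2, sum_const, card_range, nsmul_eq_mul]
  have h2 : (K : ℝ) * ‖∫ x, (w x : ℂ) * ((g x : ℂ) * F (φ x)) ∂μ‖ ≤
      (A + κ / 4) * K * ∫ x, w x ∂μ + ‖F‖ * (K * (r₁ * ε)) + ‖F‖ * K * μ.real (SD T φ d)ᶜ := by
    have h3 : (K : ℝ) * ‖∫ x, (w x : ℂ) * ((g x : ℂ) * F (φ x)) ∂μ‖ =
        ‖∫ x, ∑ k ∈ range K, (w (T^[k] x) : ℂ) * ((g (T^[k] x) : ℂ) * F (φ (T^[k] x))) ∂μ‖ := by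
      rw [← h1, norm_mul, Complex.norm_natCast]
    rw [h3]
    refine (norm_integral_le_integral_norm _).trans ?_
    have i1 : Integrable (fun x => (A + κ / 4) * K * w x) μ := hwi.const_mul _
    have i2 : Integrable (fun x => ‖F‖ * ∑ k ∈ range K, Gf (fun n => g (T^[n] x)) r₁ L k) μ :=
      (integrable_finsetSum _ fun k _ => hGi k).const_mul _
    have i3 : Integrable (fun x => ‖F‖ * K * B x) μ := hBi.const_mul _
    have h4 : Integrable (fun x => (A + κ / 4) * K * w x + ‖F‖ * ∑ k ∈ range K, Gf (fun n => g (T^[n] x)) r₁ L k + ‖F‖ * K * B x) μ :=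
      (i1.add i2).add i3
    refine (integral_mono_ae (integrable_finsetSum _ fun k _ => hF2 k).norm h4 hae).trans ?_
    have e1 : ∫ x, ((A + κ / 4) * K * w x + ‖F‖ * ∑ k ∈ range K, Gf (fun n => g (T^[n] x)) r₁ L k + ‖F‖ * K * B x) ∂μ =
        ∫ x, ((A + κ / 4) * K * w x + ‖F‖ * ∑ k ∈ range K, Gf (fun n => g (T^[n] x)) r₁ L k) ∂μ + ∫ x, ‖F‖ * K * B x ∂μ :=
      integral_add (i1.add i2) i3
    have e2 : ∫ x, ((A + κ / 4) * K * w x + ‖F‖ * ∑ k ∈ range K, Gf (fun n => g (T^[n] x)) r₁ L k) ∂μ =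
        ∫ x, (A + κ / 4) * K * w x ∂μ + ∫ x, ‖F‖ * ∑ k ∈ range K, Gf (fun n => g (T^[n] x)) r₁ L k ∂μ := integral_add i1 i2
    have e3 : ∫ x, ‖F‖ * ∑ k ∈ range K, Gf (fun n => g (T^[n] x)) r₁ L k ∂μ = ‖F‖ * ∫ x, ∑ k ∈ range K, Gf (fun n => g (T^[n] x)) r₁ L k ∂μ :=
      integral_const_mul _ _
    have e4 : ∫ x, (A + κ / 4) * K * w x ∂μ = (A + κ / 4) * K * ∫ x, w x ∂μ := integral_const_mul _ _
    have e5 : ∫ x, ‖F‖ * K * B x ∂μ = ‖F‖ * K * ∫ x, B x ∂μ := integral_const_mul _ _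
    rw [e1, e2, e3, e4, e5, hBint, integral_finsetSum _ (fun k _ => hGi k)]
    apply add_le_add _ le_rfl
    apply add_le_add le_rfl
    apply mul_le_mul_of_nonneg_left _ (norm_nonneg _)
    refine (sum_le_sum fun k _ => hGint k).trans ?_
    rw [sum_const, card_range, nsmul_eq_mul]
  have h3 : ‖F‖ * (K * (r₁ * ε)) ≤ κ / 4 * K := by
    have e1 : (r₁ : ℝ) * ε = κ / (4 * (‖F‖ + 1)) := by
      rw [hε]
      field_simp
    rw [e1]
    have e2 : ‖F‖ * (κ / (4 * (‖F‖ + 1))) ≤ κ / 4 := by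
      rw [mul_div_assoc', div_le_div_iff₀ (by positivity) (by norm_num)]
      nlinarith [norm_nonneg F]
    nlinarith
  have h5 : ‖F‖ * K * μ.real (SD T φ d)ᶜ ≤ κ / 2 * K := by
    have := mul_le_mul_of_nonneg_right hd hK0.le
    linarith
  have h6 : κ / 4 * K * ∫ x, w x ∂μ ≤ κ / 4 * K * 1 := mul_le_mul_of_nonneg_left hwint (by positivity)
  have h4 : (K : ℝ) * ‖∫ x, (w x : ℂ) * ((g x : ℂ) * F (φ x)) ∂μ‖ ≤ K * (A * ∫ x, w x ∂μ + κ) := by
    have e1 : (A + κ / 4) * K * ∫ x, w x ∂μ = K * (A * ∫ x, w x ∂μ) + κ / 4 * K * ∫ x, w x ∂μ := by ring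
    rw [e1] at h2
    linarith
  exact le_of_mul_le_mul_left h4 hK0

end

end Pool.Agent.R509.PP
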