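import Pool.Agent.R509.PP.Abs

/-!
Library R509.PP (helper509): functions without atoms in the spectrum, and relative phase polynomials with
invariant modulus.
-/

set_option autoImplicit false

namespace Pool.Agent.R509.PP

open Finset MeasureTheory Polynomial Filter Topology
open Pool.Agent.R509.CD

lemma arg_lift (c t : ℝ) (hc : 0 < c) :
    (((Complex.arg ((c : ℂ) * Complex.exp (2 * Real.pi * Complex.I * (t : ℂ)))) / (2 * Real.pi) : ℝ) : UnitAddCircle) = (t : UnitAddCircle) := by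
  have hpi := Real.pi_pos
  rw [Complex.arg_real_mul _ hc]
  have e1 : (2 * Real.pi * Complex.I * (t : ℂ)) = ((2 * Real.pi * t : ℝ) : ℂ) * Complex.I := by
    push_cast
    ring
  rw [e1, Complex.arg_exp_mul_I]
  set k := toIocDiv Real.two_pi_pos (-Real.pi) (2 * Real.pi * t) with hk
  have e2 : toIocMod Real.two_pi_pos (-Real.pi) (2 * Real.pi * t) = 2 * Real.pi * t - k * (2 * Real.pi) := by
    unfold toIocMod
    rw [← hk, zsmul_eq_mul]
  have e3 : (2 * Real.pi * t - k * (2 * Real.pi)) / (2 * Real.pi) = t - k := by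
    field_simp
  rw [e2, e3]
  have e4 : ((t - k : ℝ) : UnitAddCircle) = (t : UnitAddCircle) - ((k : ℝ) : UnitAddCircle) := rfl
  have e5 : (((k : ℤ) : ℝ) : UnitAddCircle) = 0 := by
    rw [AddCircle.coe_eq_zero_iff]
    exact ⟨k, by simp⟩
  rw [e4, e5, sub_zero]

variable {Y : Type*} [MeasurableSpace Y]

/-- **relative phase polynomials with invariant modulus** -/
theorem abs_phase (μ : Measure Y) [IsProbabilityMeasure μ] (T : Y → Y) (hT : MeasurePreserving T μ μ) (g : Y → ℝ)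
    (hgm : Measurable g) (hg1 : ∀ x, |g x| ≤ 1)
    (hc : Tendsto (fun H : ℕ => (1 / (H : ℝ)) * ∑ h ∈ range H, |∫ x, g x * g (T^[h + 1] x) ∂μ|) atTop (𝓝 0))
    (u : Y → ℂ) (hum : Measurable u) (hu1 : ∀ x, ‖u x‖ ≤ 1)
    (hu : ∀ᵐ x ∂μ, ∃ (c : ℝ) (P : ℝ[X]), 0 ≤ c ∧ ∀ n : ℕ, u (T^[n] x) = c * Complex.exp (2 * Real.pi * Complex.I * ((P.eval (n : ℝ) : ℝ) : ℂ))) :
    ‖∫ x, (g x : ℂ) * u x ∂μ‖ ≤ 2 / Real.pi * ∫ x, ‖u x‖ ∂μ := by
  have hpi := Real.pi_pos
  have hnorm : ∀ (c : ℝ) (t : ℝ), 0 ≤ c → ‖(c : ℂ) * Complex.exp (2 * Real.pi * Complex.I * (t : ℂ))‖ = c := by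
    intro c t hc
    rw [norm_mul, Complex.norm_real, Real.norm_eq_abs, abs_of_nonneg hc]
    have e1 : (2 * Real.pi * Complex.I * (t : ℂ)) = ((2 * Real.pi * t : ℝ) : ℂ) * Complex.I := by
      push_cast
      ring
    rw [e1, Complex.norm_exp_ofReal_mul_I, mul_one]
  set φ : Y → Fin 1 → UnitAddCircle := fun x _ => ((Complex.arg (u x) / (2 * Real.pi) : ℝ) : UnitAddCircle) with hφ
  have hφm : Measurable φ := by
    refine measurable_pi_lambda _ fun _ => ?_
    exact (AddCircle.continuous_mk' (1 : ℝ)).measurable.comp ((Complex.measurable_arg.comp hum).div_const _)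
  have hmain := abs_main μ T hT g hgm hg1 hc (fun x => ‖u x‖) hum.norm (fun x => norm_nonneg _) hu1 (by
    filter_upwards [hu] with x hx
    obtain ⟨c, P, hc0, hcP⟩ := hx
    intro n
    have h0 := hcP 0
    simp only [Function.iterate_zero, id_eq] at h0
    rw [hcP n, h0, hnorm c _ hc0, hnorm c _ hc0]) 1 φ hφm (by
    filter_upwards [hu] with x hx
    obtain ⟨c, P, hc0, hcP⟩ := hx
    rcases hc0.lt_or_eq with h | h
    · refine ⟨fun _ => P, fun n => ?_⟩
      funext i
      simp only [hφ]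
      rw [hcP n, arg_lift c _ h]
      rfl
    · refine ⟨fun _ => 0, fun n => ?_⟩
      funext i
      simp only [hφ]
      rw [hcP n, ← h]
      simp [pt]) ch1 (2 / Real.pi) dev_ch1
  refine le_trans (le_of_eq ?_) hmain
  congr 1
  apply integral_congr_ae
  filter_upwards with x
  have h1 : ch1 (φ x) = Complex.exp (Complex.arg (u x) * Complex.I) := by
    have h2 := ch1_pt (fun _ => Complex.arg (u x) / (2 * Real.pi))
    have h3 : pt (fun _ : Fin 1 => Complex.arg (u x) / (2 * Real.pi)) = φ x := rfl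
    rw [h3] at h2
    rw [h2]
    unfold E
    congr 1
    push_cast
    have : (Real.pi : ℂ) ≠ 0 := by exact_mod_cast hpi.ne'
    field_simp
  rw [h1]
  have h4 := Complex.norm_mul_exp_arg_mul_I (u x)
  calc (g x : ℂ) * u x = (g x : ℂ) * ((‖u x‖ : ℂ) * Complex.exp (Complex.arg (u x) * Complex.I)) := by rw [h4]
    _ = _ := by ring

end Pool.Agent.R509.PP
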