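import Pool.Agent.R509.PP.Poly

/-!
Library R509.PP (helper509): equidistribution on tori along sequences with small Weyl sums.
-/

set_option autoImplicit false

namespace Pool.Agent.R509.PP

open Finset MeasureTheory
open Pool.Agent.R509.CD

instance : IsProbabilityMeasure (volume : Measure UnitAddCircle) := ⟨UnitAddCircle.measure_univ⟩

instance (m : ℕ) : IsProbabilityMeasure (volume : Measure (Fin m → UnitAddCircle)) := by
  rw [volume_pi]; infer_instance

/-- the point of the torus with given real coordinates -/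
def pt {m : ℕ} (x : Fin m → ℝ) : Fin m → UnitAddCircle := fun i => (x i : UnitAddCircle)

/-- an integer matrix acting on the torus -/
def act {m : ℕ} (B : Fin m → Fin m → ℤ) (y : Fin m → UnitAddCircle) : Fin m → UnitAddCircle :=
  fun i => ∑ j, B i j • y j

/-- the diagonal matrix with ones at the places in `I` -/
def msk {m : ℕ} (I : Finset (Fin m)) (i j : Fin m) : ℤ := if i = j ∧ i ∈ I then 1 else 0

lemma act_msk {m : ℕ} (I : Finset (Fin m)) (y : Fin m → UnitAddCircle) (i : Fin m) :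
    act (msk I) y i = if i ∈ I then y i else 0 := by
  unfold act msk
  split_ifs with h
  · rw [sum_eq_single i]
    · simp [h]
    · intro j _ hj
      rw [if_neg (fun hh => hj hh.1.symm), zero_smul]
    · intro hh; exact absurd (mem_univ i) hh
  · apply sum_eq_zero
    intro j _
    rw [if_neg (fun hh => h hh.2), zero_smul]

lemma mF_apply {m : ℕ} (k : Fin m → ℤ) (y : Fin m → UnitAddCircle) :
    UnitAddTorus.mFourier k y = ∏ i, fourier (k i) (y i) := rfl

lemma mF_pt {m : ℕ} (k : Fin m → ℤ) (x : Fin m → ℝ) : UnitAddTorus.mFourier k (pt x) = E (∑ i, k i * x i) := by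
  rw [mF_apply]
  unfold pt E
  simp only [fourier_coe_apply]
  rw [← Complex.exp_sum]
  congr 1
  push_cast
  rw [mul_sum, mul_sum]
  apply sum_congr rfl
  intro i _
  simp only [div_one]
  ring

lemma mF_norm {m : ℕ} (k : Fin m → ℤ) (y : Fin m → UnitAddCircle) : ‖UnitAddTorus.mFourier k y‖ = 1 := by
  rw [mF_apply, norm_prod]
  apply prod_eq_one
  intro i _
  exact Circle.norm_coe _

lemma int_fourier (n : ℤ) (hn : n ≠ 0) : ∫ y : UnitAddCircle, (fourier n y : ℂ) = 0 := by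
  have ha : ∃ a : UnitAddCircle, (fourier n a : ℂ) ≠ 1 := by
    refine ⟨((1 / (2 * n) : ℝ) : UnitAddCircle), ?_⟩
    rw [fourier_coe_apply]
    have hn' : (n : ℂ) ≠ 0 := by exact_mod_cast hn
    have : 2 * (Real.pi : ℂ) * Complex.I * n * ((1 / (2 * n) : ℝ) : ℂ) / ((1 : ℝ) : ℂ) = Real.pi * Complex.I := by
      push_cast
      field_simp
    rw [this, Complex.exp_pi_mul_I]
    norm_num
  obtain ⟨a, ha⟩ := ha
  have h1 : ∫ x : UnitAddCircle, (fourier n (x + a) : ℂ) = ∫ x : UnitAddCircle, (fourier n x : ℂ) :=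
    integral_add_right_eq_self (fun x => (fourier n x : ℂ)) a
  have h2 : ∀ x : UnitAddCircle, (fourier n (x + a) : ℂ) = fourier n x * fourier n a := by
    intro x
    simp only [fourier_apply]
    rw [smul_add, AddCircle.toCircle_add]; simp
  simp_rw [h2] at h1
  rw [integral_mul_const] at h1
  have h3 : (∫ x : UnitAddCircle, (fourier n x : ℂ)) * (fourier n a - 1) = 0 := by
    rw [mul_sub, h1, mul_one, sub_self]
  rcases mul_eq_zero.1 h3 with h4 | h4
  · exact h4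
  · exact absurd (sub_eq_zero.1 h4) ha

lemma fourier_add' (n : ℤ) (x y : UnitAddCircle) : (fourier n (x + y) : ℂ) = fourier n x * fourier n y := by
  simp only [fourier_apply]
  rw [smul_add, AddCircle.toCircle_add]; simp

lemma int_mF {m : ℕ} (I : Finset (Fin m)) (k : Fin m → ℤ) (x₀ : Fin m → UnitAddCircle) (h : ∃ i ∈ I, k i ≠ 0) :
    ∫ y : Fin m → UnitAddCircle, (UnitAddTorus.mFourier k (x₀ + act (msk I) y) : ℂ) = 0 := by
  obtain ⟨i, hi, hk⟩ := h
  have h1 : ∀ y : Fin m → UnitAddCircle, (UnitAddTorus.mFourier k (x₀ + act (msk I) y) : ℂ) =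
      ∏ j, (fun (j : Fin m) (t : UnitAddCircle) => (fourier (k j) (x₀ j + if j ∈ I then t else 0) : ℂ)) j (y j) := by
    intro y
    rw [mF_apply]
    apply prod_congr rfl
    intro j _
    rw [Pi.add_apply, act_msk]
  have h2 := integral_fintype_prod_volume_eq_prod (𝕜 := ℂ) (fun (j : Fin m) (t : UnitAddCircle) => (fourier (k j) (x₀ j + if j ∈ I then t else 0) : ℂ))
  rw [integral_congr_ae (Filter.Eventually.of_forall h1), h2]
  apply prod_eq_zero (mem_univ i)
  simp only [if_pos hi]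
  simp_rw [fourier_add']
  rw [integral_const_mul, int_fourier _ hk, mul_zero]

lemma mF_inactive {m : ℕ} (I : Finset (Fin m)) (k : Fin m → ℤ) (x₀ z : Fin m → UnitAddCircle) (h : ¬ ∃ i ∈ I, k i ≠ 0)
    (hz : ∀ i, i ∉ I → z i = x₀ i) : UnitAddTorus.mFourier k z = UnitAddTorus.mFourier k x₀ := by
  rw [mF_apply, mF_apply]
  apply prod_congr rfl
  intro i _
  by_cases hi : i ∈ I
  · have : k i = 0 := by
      by_contra hk
      exact h ⟨i, hi, hk⟩
    rw [this, fourier_zero, fourier_zero]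
  · rw [hz i hi]

lemma act_cont {m : ℕ} (B : Fin m → Fin m → ℤ) : Continuous (act B) := by
  unfold act
  apply continuous_pi
  intro i
  apply continuous_finsetSum
  intro j _
  exact (continuous_apply j).zsmul (B i j)

/-- equidistribution of a single continuous function -/
lemma equi_one {m : ℕ} (G : C(Fin m → UnitAddCircle, ℂ)) (κ : ℝ) (hκ : 0 < κ) :
    ∃ 𝒦 : Finset (Fin m → ℤ), ∃ δ : ℝ, 0 < δ ∧ ∀ (I : Finset (Fin m)) (z : ℕ → Fin m → UnitAddCircle) (x₀ : Fin m → UnitAddCircle),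
      (∀ n, ∀ i, i ∉ I → z n i = x₀ i) → ∀ K : ℕ,
      (∀ k ∈ 𝒦, (∃ i ∈ I, k i ≠ 0) → ‖∑ n ∈ range K, (UnitAddTorus.mFourier k (z n) : ℂ)‖ ≤ δ * K) →
      ‖∑ n ∈ range K, G (z n) - K * ∫ y : Fin m → UnitAddCircle, G (x₀ + act (msk I) y)‖ ≤ κ * K := by
  have h1 : G ∈ (Submodule.span ℂ (Set.range (UnitAddTorus.mFourier (d := Fin m)))).topologicalClosure := by
    rw [UnitAddTorus.span_mFourier_closure_eq_top]
    trivial
  have h2 : G ∈ closure ((Submodule.span ℂ (Set.range (UnitAddTorus.mFourier (d := Fin m))) : Submodule ℂ C(UnitAddTorus (Fin m), ℂ)) : Set C(UnitAddTorus (Fin m), ℂ)) := h1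
  rw [Metric.mem_closure_iff] at h2
  obtain ⟨p, hp, hd⟩ := h2 (κ / 3) (by positivity)
  obtain ⟨a, ha⟩ := (Finsupp.mem_span_range_iff_exists_finsupp).1 hp
  set T : ℝ := ∑ k ∈ a.support, ‖a k‖ with hT
  have hT0 : 0 ≤ T := sum_nonneg fun _ _ => norm_nonneg _
  refine ⟨a.support, κ / (3 * (T + 1)), by positivity, fun I z x₀ hz K hW => ?_⟩
  have hK0 : (0 : ℝ) ≤ K := Nat.cast_nonneg K
  have hpe : ∀ x, p x = ∑ k ∈ a.support, a k * UnitAddTorus.mFourier k x := by
    intro x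
    rw [← ha, Finsupp.sum, ContinuousMap.sum_apply]
    apply sum_congr rfl
    intro k _
    rw [ContinuousMap.smul_apply, smul_eq_mul]
  have hGp : ∀ x, ‖G x - p x‖ ≤ κ / 3 := by
    intro x
    have := ContinuousMap.dist_apply_le_dist (f := G) (g := p) x
    rw [dist_eq_norm] at this
    exact this.trans hd.le
  have hcont : Continuous fun y : Fin m → UnitAddCircle => x₀ + act (msk I) y := continuous_const.add (act_cont _)
  have hint : ∀ g : C(Fin m → UnitAddCircle, ℂ), Integrable (fun y : Fin m → UnitAddCircle => g (x₀ + act (msk I) y)) := by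
    intro g
    exact (g.continuous.comp hcont).integrable_of_hasCompactSupport (HasCompactSupport.of_compactSpace _)
  have e1 : ∑ n ∈ range K, p (z n) - K * ∫ y : Fin m → UnitAddCircle, p (x₀ + act (msk I) y) =
      ∑ k ∈ a.support, a k * (∑ n ∈ range K, (UnitAddTorus.mFourier k (z n) : ℂ) -
        K * ∫ y : Fin m → UnitAddCircle, (UnitAddTorus.mFourier k (x₀ + act (msk I) y) : ℂ)) := by
    simp_rw [hpe]
    rw [integral_finsetSum _ (fun k _ => (hint (UnitAddTorus.mFourier k)).const_mul (a k))]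
    simp_rw [integral_const_mul]
    rw [sum_comm, mul_sum, ← sum_sub_distrib]
    apply sum_congr rfl
    intro k _
    rw [← mul_sum]
    ring
  have e2 : ∀ k ∈ a.support, ‖a k * (∑ n ∈ range K, (UnitAddTorus.mFourier k (z n) : ℂ) -
        K * ∫ y : Fin m → UnitAddCircle, (UnitAddTorus.mFourier k (x₀ + act (msk I) y) : ℂ))‖ ≤ ‖a k‖ * (κ / (3 * (T + 1)) * K) := by
    intro k hk
    rw [norm_mul]
    apply mul_le_mul_of_nonneg_left _ (norm_nonneg _)
    by_cases hac : ∃ i ∈ I, k i ≠ 0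
    · rw [int_mF I k x₀ hac, mul_zero, sub_zero]
      exact hW k hk hac
    · have h3 : ∀ n, UnitAddTorus.mFourier k (z n) = UnitAddTorus.mFourier k x₀ := fun n => mF_inactive I k x₀ (z n) hac (hz n)
      have h4 : ∀ y : Fin m → UnitAddCircle, UnitAddTorus.mFourier k (x₀ + act (msk I) y) = UnitAddTorus.mFourier k x₀ := by
        intro y
        apply mF_inactive I k x₀ _ hac
        intro i hi
        rw [Pi.add_apply, act_msk, if_neg hi, add_zero]
      simp_rw [h3, h4]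
      rw [integral_const]
      simp only [sum_const, card_range, nsmul_eq_mul, probReal_univ, one_smul, sub_self, norm_zero]
      positivity
  have e3 : ‖∑ n ∈ range K, p (z n) - K * ∫ y : Fin m → UnitAddCircle, p (x₀ + act (msk I) y)‖ ≤ κ / 3 * K := by
    rw [e1]
    refine (norm_sum_le _ _).trans ((sum_le_sum e2).trans ?_)
    rw [← sum_mul, ← hT]
    have h5 : T * (κ / (3 * (T + 1))) ≤ κ / 3 := by
      rw [mul_div_assoc', div_le_div_iff₀ (by positivity) (by norm_num)]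
      nlinarith
    nlinarith
  have e4 : ‖∑ n ∈ range K, (G (z n) - p (z n))‖ ≤ κ / 3 * K := by
    refine (norm_sum_le _ _).trans ((sum_le_sum fun n _ => hGp (z n)).trans (le_of_eq ?_))
    rw [sum_const, card_range, nsmul_eq_mul]; ring
  have e5 : ‖∫ y : Fin m → UnitAddCircle, (G (x₀ + act (msk I) y) - p (x₀ + act (msk I) y))‖ ≤ κ / 3 := by
    refine (norm_integral_le_of_norm_le_const (C := κ / 3) (Filter.Eventually.of_forall fun y => hGp _)).trans (le_of_eq ?_)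
    simp
  have e6 : ∑ n ∈ range K, G (z n) - K * ∫ y : Fin m → UnitAddCircle, G (x₀ + act (msk I) y) =
      (∑ n ∈ range K, p (z n) - K * ∫ y : Fin m → UnitAddCircle, p (x₀ + act (msk I) y)) +
      ∑ n ∈ range K, (G (z n) - p (z n)) - K * ∫ y : Fin m → UnitAddCircle, (G (x₀ + act (msk I) y) - p (x₀ + act (msk I) y)) := by
    rw [integral_sub (hint G) (hint p), sum_sub_distrib]
    ring
  rw [e6]
  refine (norm_sub_le _ _).trans ?_
  have e7 := norm_add_le (∑ n ∈ range K, p (z n) - K * ∫ y : Fin m → UnitAddCircle, p (x₀ + act (msk I) y)) (∑ n ∈ range K, (G (z n) - p (z n)))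
  have e8 : ‖(K : ℂ) * ∫ y : Fin m → UnitAddCircle, (G (x₀ + act (msk I) y) - p (x₀ + act (msk I) y))‖ ≤ κ / 3 * K := by
    rw [norm_mul, Complex.norm_natCast, mul_comm]
    exact mul_le_mul_of_nonneg_right e5 hK0
  linarith

/-- the function whose mean is the mean deviation -/
noncomputable def dv {m : ℕ} (F : C(Fin m → UnitAddCircle, ℂ)) (c : ℂ) (t : ℝ) (x : Fin m → UnitAddCircle) : ℝ :=
  |(c * F x).re - t|

lemma dv_cont {m : ℕ} (F : C(Fin m → UnitAddCircle, ℂ)) (c : ℂ) (t : ℝ) : Continuous (dv F c t) := by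
  unfold dv
  exact ((Complex.continuous_re.comp (continuous_const.mul F.continuous)).sub continuous_const).abs

lemma dv_diff {m : ℕ} (F : C(Fin m → UnitAddCircle, ℂ)) (M : ℝ) (hM : ∀ x, ‖F x‖ ≤ M) (c c' : ℂ) (t t' : ℝ) (x : Fin m → UnitAddCircle) :
    dv F c t x ≤ dv F c' t' x + (‖c - c'‖ * M + |t - t'|) := by
  unfold dv
  have h1 : (c * F x).re - t = ((c' * F x).re - t') + (((c - c') * F x).re - (t - t')) := by
    rw [sub_mul, Complex.sub_re]; ring
  rw [h1]
  refine (abs_add_le _ _).trans ?_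
  have h2 : |((c - c') * F x).re - (t - t')| ≤ ‖c - c'‖ * M + |t - t'| := by
    refine (abs_sub _ _).trans (add_le_add ?_ le_rfl)
    refine (Complex.abs_re_le_norm _).trans ?_
    rw [norm_mul]
    exact mul_le_mul_of_nonneg_left (hM x) (norm_nonneg _)
  linarith

/-- equidistribution, uniformly over the phase and the constant subtracted -/
lemma equi_dv {m : ℕ} (F : C(Fin m → UnitAddCircle, ℂ)) (M : ℝ) (hM : ∀ x, ‖F x‖ ≤ M) (κ : ℝ) (hκ : 0 < κ) :
    ∃ 𝒦 : Finset (Fin m → ℤ), ∃ δ : ℝ, 0 < δ ∧ ∀ (c : ℂ) (t : ℝ), ‖c‖ = 1 → |t| ≤ M →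
      ∀ (I : Finset (Fin m)) (z : ℕ → Fin m → UnitAddCircle) (x₀ : Fin m → UnitAddCircle),
      (∀ n, ∀ i, i ∉ I → z n i = x₀ i) → ∀ K : ℕ,
      (∀ k ∈ 𝒦, (∃ i ∈ I, k i ≠ 0) → ‖∑ n ∈ range K, (UnitAddTorus.mFourier k (z n) : ℂ)‖ ≤ δ * K) →
      ∑ n ∈ range K, dv F c t (z n) ≤ ((∫ y : Fin m → UnitAddCircle, dv F c t (x₀ + act (msk I) y)) + κ) * K := by
  classical
  have hM0 : 0 ≤ M := (norm_nonneg _).trans (hM 0)
  have hcomp : IsCompact (Metric.sphere (0 : ℂ) 1 ×ˢ Set.Icc (-M) M) := (isCompact_sphere _ _).prod isCompact_Icc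
  obtain ⟨Λ, hΛ1, hΛ2, hΛ3⟩ := hcomp.finite_cover_balls (e := κ / (4 * (M + 1))) (by positivity)
  have hone : ∀ p : ℂ × ℝ, ∃ 𝒦 : Finset (Fin m → ℤ), ∃ δ : ℝ, 0 < δ ∧ ∀ (I : Finset (Fin m)) (z : ℕ → Fin m → UnitAddCircle) (x₀ : Fin m → UnitAddCircle),
      (∀ n, ∀ i, i ∉ I → z n i = x₀ i) → ∀ K : ℕ,
      (∀ k ∈ 𝒦, (∃ i ∈ I, k i ≠ 0) → ‖∑ n ∈ range K, (UnitAddTorus.mFourier k (z n) : ℂ)‖ ≤ δ * K) →
      ∑ n ∈ range K, dv F p.1 p.2 (z n) ≤ ((∫ y : Fin m → UnitAddCircle, dv F p.1 p.2 (x₀ + act (msk I) y)) + κ / 2) * K := by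
    intro p
    obtain ⟨𝒦, δ, hδ, h⟩ := equi_one (⟨fun x => ((dv F p.1 p.2 x : ℝ) : ℂ), Complex.continuous_ofReal.comp (dv_cont F p.1 p.2)⟩ : C(Fin m → UnitAddCircle, ℂ)) (κ / 2) (by positivity)
    refine ⟨𝒦, δ, hδ, fun I z x₀ hz K hW => ?_⟩
    have h1 := h I z x₀ hz K hW
    simp only [ContinuousMap.coe_mk] at h1
    rw [integral_complex_ofReal, ← Complex.ofReal_sum, ← Complex.ofReal_natCast, ← Complex.ofReal_mul, ← Complex.ofReal_sub, Complex.norm_real] at h1
    have h2 := (le_abs_self _).trans h1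
    linarith
  choose 𝒦 δ hδ h using hone
  obtain ⟨Λ', hΛ'⟩ : ∃ Λ' : Finset (ℂ × ℝ), ∀ p, p ∈ Λ' ↔ p ∈ Λ := ⟨hΛ2.toFinset, fun p => hΛ2.mem_toFinset⟩
  have hδmin : ∃ δ₀ : ℝ, 0 < δ₀ ∧ ∀ p ∈ Λ', δ₀ ≤ δ p := by
    rcases Λ'.eq_empty_or_nonempty with he | hne
    · exact ⟨1, one_pos, fun p hp => by rw [he] at hp; simp at hp⟩
    · obtain ⟨p₀, hp₀, hmin⟩ := Λ'.exists_min_image δ hne
      exact ⟨δ p₀, hδ p₀, hmin⟩
  obtain ⟨δ₀, hδ₀, hδ₁⟩ := hδmin
  refine ⟨Λ'.biUnion 𝒦, δ₀, hδ₀, fun c t hc ht I z x₀ hz K hW => ?_⟩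
  have hK0 : (0 : ℝ) ≤ K := Nat.cast_nonneg K
  have hmem : (c, t) ∈ Metric.sphere (0 : ℂ) 1 ×ˢ Set.Icc (-M) M := by
    refine ⟨by simpa using hc, ?_⟩
    exact Set.mem_Icc.2 (abs_le.1 ht)
  have h1 := hΛ3 hmem
  rw [Set.mem_iUnion₂] at h1
  obtain ⟨p, hp, hpd⟩ := h1
  rw [Metric.mem_ball, Prod.dist_eq, max_lt_iff] at hpd
  obtain ⟨hp1, hp2⟩ := hpd
  simp only [dist_eq_norm] at hp1 hp2
  have hpΛ : p ∈ Λ' := (hΛ' p).2 hp
  have h2 := h p I z x₀ hz K (fun k hk hac => (hW k (mem_biUnion.2 ⟨p, hpΛ, hk⟩) hac).trans (mul_le_mul_of_nonneg_right (hδ₁ p hpΛ) hK0))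
  have hsmall : ‖c - p.1‖ * M + |t - p.2| ≤ κ / 4 := by
    have h3 : ‖c - p.1‖ * M ≤ κ / (4 * (M + 1)) * M := mul_le_mul_of_nonneg_right hp1.le hM0
    have h4 : |t - p.2| ≤ κ / (4 * (M + 1)) := by
      rw [← Real.norm_eq_abs]; exact hp2.le
    have h5 : κ / (4 * (M + 1)) * M + κ / (4 * (M + 1)) = κ / 4 := by field_simp
    linarith
  have hsmall' : ‖p.1 - c‖ * M + |p.2 - t| ≤ κ / 4 := by
    rw [norm_sub_rev, abs_sub_comm]; exact hsmall
  have h3 : ∑ n ∈ range K, dv F c t (z n) ≤ ∑ n ∈ range K, dv F p.1 p.2 (z n) + κ / 4 * K := by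
    have h4 : ∀ n ∈ range K, dv F c t (z n) ≤ dv F p.1 p.2 (z n) + κ / 4 := fun n _ =>
      (dv_diff F M hM c p.1 t p.2 (z n)).trans (by linarith)
    refine (sum_le_sum h4).trans (le_of_eq ?_)
    rw [sum_add_distrib, sum_const, card_range, nsmul_eq_mul]; ring
  have hcont : Continuous fun y : Fin m → UnitAddCircle => x₀ + act (msk I) y := continuous_const.add (act_cont _)
  have hint : ∀ (c' : ℂ) (t' : ℝ), Integrable (fun y : Fin m → UnitAddCircle => dv F c' t' (x₀ + act (msk I) y)) := by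
    intro c' t'
    exact ((dv_cont F c' t').comp hcont).integrable_of_hasCompactSupport (HasCompactSupport.of_compactSpace _)
  have h5 : ∫ y : Fin m → UnitAddCircle, dv F p.1 p.2 (x₀ + act (msk I) y) ≤ (∫ y : Fin m → UnitAddCircle, dv F c t (x₀ + act (msk I) y)) + κ / 4 := by
    have h6 : ∫ y : Fin m → UnitAddCircle, dv F p.1 p.2 (x₀ + act (msk I) y) ≤ ∫ y : Fin m → UnitAddCircle, (dv F c t (x₀ + act (msk I) y) + κ / 4) := by
      apply integral_mono (hint _ _) ((hint _ _).add (integrable_const _))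
      intro y
      show dv F p.1 p.2 (x₀ + act (msk I) y) ≤ dv F c t (x₀ + act (msk I) y) + κ / 4
      exact (dv_diff F M hM p.1 c p.2 t _).trans (by linarith)
    rw [integral_add (hint _ _) (integrable_const _)] at h6
    simpa using h6
  have h7 := mul_le_mul_of_nonneg_right h5 hK0
  linarith

end Pool.Agent.R509.PP
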