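import Pool.Agent.R509.PP.StepA

/-!
Library R509.PP (helper509): mean deviations of the characters of the circle.
-/

set_option autoImplicit false

namespace Pool.Agent.R509.PP

open Finset MeasureTheory
open Pool.Agent.R509.CD

/-- the character of the circle as a function on the torus of dimension one -/
noncomputable def ch1 : C(Fin 1 → UnitAddCircle, ℂ) :=
  ⟨fun x => (fourier 1 (x 0) : ℂ), (ContinuousMap.continuous _).comp (continuous_apply 0)⟩

lemma ch1_pt (x : Fin 1 → ℝ) : ch1 (pt x) = E (x 0) := by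
  show (fourier 1 ((x 0 : ℝ) : UnitAddCircle) : ℂ) = _
  rw [fourier_coe_apply]
  unfold E
  congr 1
  push_cast
  ring

lemma int_abs (c : ℂ) (hc : ‖c‖ = 1) : ∫ y : UnitAddCircle, |(c * (fourier 1 y : ℂ)).re| = 2 / Real.pi := by
  have hpi := Real.pi_pos
  set γ : ℝ := Complex.arg c / (2 * Real.pi) with hγ
  have hcE : c = E γ := by
    have h1 := Complex.norm_mul_exp_arg_mul_I c
    rw [hc, Complex.ofReal_one, one_mul] at h1
    rw [← h1]
    unfold E
    congr 1
    rw [hγ]
    push_cast
    have : (Real.pi : ℂ) ≠ 0 := by exact_mod_cast hpi.ne'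
    field_simp
  have h1 := AddCircle.intervalIntegral_preimage (1 : ℝ) 0 (fun y : UnitAddCircle => |(c * (fourier 1 y : ℂ)).re|)
  rw [zero_add] at h1
  rw [← h1, ← Pool.Agent.R509.HK.int_cos γ]
  apply intervalIntegral.integral_congr
  intro t _
  simp only
  have h2 : (c * (fourier 1 (t : UnitAddCircle) : ℂ)) = E (t + γ) := by
    rw [hcE, E_add, mul_comm]
    congr 1
    rw [fourier_coe_apply]
    unfold E
    congr 1
    push_cast
    ring
  have h3 : |(c * (fourier 1 (t : UnitAddCircle) : ℂ)).re| = |(E (t + γ)).re| := by rw [h2]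
  refine h3.trans ?_
  unfold E
  rw [mul_comm Complex.I, Complex.exp_ofReal_mul_I_re]

lemma dev_ch1 : Dev ch1 (2 / Real.pi) := by
  intro B x c hc
  have hpi := Real.pi_pos
  set b : ℤ := B 0 0 with hb
  set c' : ℂ := c * (fourier 1 (x 0) : ℂ) with hc'
  have hc1 : ‖c'‖ = 1 := by
    rw [hc', norm_mul, hc, one_mul]
    exact Circle.norm_coe _
  have h1 : ∀ y : Fin 1 → UnitAddCircle, c * ch1 (x + act B y) = c' * (fourier 1 (b • y 0) : ℂ) := by
    intro y
    show c * (fourier 1 ((x + act B y) 0) : ℂ) = _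
    have h2 : (x + act B y) 0 = x 0 + b • y 0 := by
      rw [Pi.add_apply]
      unfold act
      simp [hb]
    rw [h2, fourier_add', hc', mul_assoc]
  have h2 : ∀ t : ℝ, ∫ y : Fin 1 → UnitAddCircle, |(c * ch1 (x + act B y)).re - t| = ∫ y : UnitAddCircle, |(c' * (fourier 1 (b • y) : ℂ)).re - t| := by
    intro t
    simp_rw [h1]
    have h3 := integral_fintype_prod_volume_eq_prod (𝕜 := ℝ) (fun (_ : Fin 1) (y : UnitAddCircle) => |(c' * (fourier 1 (b • y) : ℂ)).re - t|)
    simpa using h3
  by_cases hb0 : b = 0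
  · refine ⟨c'.re, ?_⟩
    rw [h2, hb0]
    simp only [zero_smul, fourier_eval_zero, mul_one, sub_self, abs_zero, integral_zero]
    positivity
  · refine ⟨0, ?_⟩
    rw [h2]
    simp only [sub_zero]
    have h3 := (MeasureTheory.Measure.measurePreserving_zsmul (volume : Measure UnitAddCircle) hb0)
    have h4 : ∫ y : UnitAddCircle, |(c' * (fourier 1 (b • y) : ℂ)).re| = ∫ y : UnitAddCircle, |(c' * (fourier 1 y : ℂ)).re| := by
      have hcont : Continuous fun y : UnitAddCircle => |(c' * (fourier 1 y : ℂ)).re| :=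
        (Complex.continuous_re.comp (continuous_const.mul (ContinuousMap.continuous _))).abs
      have h5 := integral_map (μ := (volume : Measure UnitAddCircle)) (φ := fun y : UnitAddCircle => b • y) h3.measurable.aemeasurable
        (f := fun y : UnitAddCircle => |(c' * (fourier 1 y : ℂ)).re|) hcont.aestronglyMeasurable
      rw [h3.map_eq] at h5
      exact h5.symm
    rw [h4, int_abs c' hc1]

lemma ch1_norm (x : Fin 1 → UnitAddCircle) : ‖ch1 x‖ ≤ 1 := le_of_eq (Circle.norm_coe _)

end Pool.Agent.R509.PP
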