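import Pool.Agent.R509.PP.Win
import Pool.Agent.R509.PP.Expo

/-!
Library R509.PP (helper509): the Möbius function along polynomial orbits on tori in windows.
-/

set_option autoImplicit false

namespace Pool.Agent.R509.PP

open Finset MeasureTheory Polynomial Filter
open Pool.Agent.R509.CD
open Pool.Agent.R509.HM (period_sum mq mq_abs sqS DS DS_pos sqS_nonneg sqS_le sqS_per sqS_sum exists_W mob_le mrp_gen)
open Pool.Agent.R509.HK (Gf Gf_nonneg MRP sum_shift_le sum_Icc_range)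
open Pool.Agent.TH823.MRS (ExpoSmall mob expo_mob)

lemma mrp_mq2 : MRP (mq 2) := mrp_gen mob (fun ε hε A hA => expo_mob ε hε A hA)

/-- the Möbius function along polynomial orbits in a window -/
theorem mob_win (m d : ℕ) (F : C(Fin m → UnitAddCircle, ℂ)) (M A : ℝ) (hM : ∀ x, ‖F x‖ ≤ M) (hA : Dev F A) (κ : ℝ) (hκ : 0 < κ) :
    ∃ r₁ : ℕ, ∀ L : ℕ, 1 ≤ L → ∃ K₀ : ℕ, ∀ K : ℕ, K₀ ≤ K →
      ∀ (y : ℕ) (P : Fin m → ℝ[X]), (∀ i, (P i).natDegree ≤ d) →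
      ‖∑ k ∈ range K, (mq 2 (y + k) : ℂ) * F (pt fun i => (P i).eval (k : ℝ))‖ ≤ (6 / Real.pi ^ 2 * A + κ) * K + M * ∑ k ∈ range K, Gf (mq 2) r₁ L (y + k) := by
  have hA0 := Dev_nonneg F A hA
  set τ : ℝ := κ / (2 * (A + 1)) with hτ
  have hτ0 : 0 < τ := by positivity
  have hAτ : A * τ ≤ κ / 2 := by
    rw [hτ, mul_div_assoc', div_le_div_iff₀ (by positivity) (by norm_num)]
    nlinarith
  obtain ⟨n, hn⟩ := exists_W τ hτ0
  set S := Nat.primesBelow n with hS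
  have hSp : ∀ p ∈ S, p.Prime := fun p hp => Nat.prime_of_mem_primesBelow hp
  have hper : ∀ j, sqS S (j + DS S + 2) = sqS S (j + 2) := by
    intro j
    rw [show j + DS S + 2 = (j + 2) + DS S by ring, sqS_per]
  have hsum : ∑ b ∈ range (DS S), sqS S (b + 2) ≤ (6 / Real.pi ^ 2 + τ) * DS S := by
    have h1 := period_sum (sqS S) (DS S) (sqS_per S) 2
    simp only [add_comm 2] at h1
    rw [h1, sqS_sum S hSp]
    exact mul_le_mul_of_nonneg_right hn (Nat.cast_nonneg _)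
  obtain ⟨r₁, h⟩ := win_bound m d F M A hM hA (DS S) (DS_pos S hSp) (fun j => sqS S (j + 2)) (fun j => sqS_nonneg _ _)
    (fun j => sqS_le _ _) hper (6 / Real.pi ^ 2 + τ) hsum (κ / 2) (by positivity)
  refine ⟨r₁, fun L hL => ?_⟩
  obtain ⟨K₀, hK₀⟩ := h L hL
  refine ⟨K₀, fun K hK y P hP => ?_⟩
  refine (hK₀ K hK (mq 2) (fun j => mob_le S hSp (j + 2)) y P hP).trans ?_
  apply add_le_add _ le_rfl
  apply mul_le_mul_of_nonneg_right _ (Nat.cast_nonneg K)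
  have e1 : A * (6 / Real.pi ^ 2 + τ) = 6 / Real.pi ^ 2 * A + A * τ := by ring
  rw [e1]
  linarith

/-- the supremum over polynomial orbits in the window `(n, n + H]` -/
noncomputable def wsup {m : ℕ} (d : ℕ) (F : C(Fin m → UnitAddCircle, ℂ)) (n H : ℕ) : ℝ :=
  ⨆ P : {P : Fin m → ℝ[X] // ∀ i, (P i).natDegree ≤ d}, ‖∑ h ∈ Icc 1 H,
    F (fun i => (((P.1 i).eval ((n + h : ℕ) : ℝ) : ℝ) : UnitAddCircle)) * ((ArithmeticFunction.moebius (n + h) : ℤ) : ℂ)‖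

lemma wsup_bdd {m : ℕ} (d : ℕ) (F : C(Fin m → UnitAddCircle, ℂ)) (M : ℝ) (hM : ∀ x, ‖F x‖ ≤ M) (n H : ℕ) :
    BddAbove (Set.range fun P : {P : Fin m → ℝ[X] // ∀ i, (P i).natDegree ≤ d} => ‖∑ h ∈ Icc 1 H,
      F (fun i => (((P.1 i).eval ((n + h : ℕ) : ℝ) : ℝ) : UnitAddCircle)) * ((ArithmeticFunction.moebius (n + h) : ℤ) : ℂ)‖) := by
  refine ⟨∑ _h ∈ Icc 1 H, M, ?_⟩
  rintro _ ⟨P, rfl⟩
  refine (norm_sum_le _ _).trans (sum_le_sum fun h _ => ?_)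
  have hM0 : 0 ≤ M := (norm_nonneg _).trans (hM 0)
  rw [norm_mul]
  have h1 : ‖((ArithmeticFunction.moebius (n + h) : ℤ) : ℂ)‖ ≤ 1 := by
    rw [Complex.norm_intCast]
    exact_mod_cast ArithmeticFunction.abs_moebius_le_one (n := n + h)
  have h2 := mul_le_mul (hM (fun i => (((P.1 i).eval ((n + h : ℕ) : ℝ) : ℝ) : UnitAddCircle))) h1 (norm_nonneg _) hM0
  linarith

theorem mob_avg (m d : ℕ) (F : C(Fin m → UnitAddCircle, ℂ)) (A : ℝ) (hA : Dev F A) (ε : ℝ) (hε : 0 < ε) :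
    ∃ H₀ : ℕ, ∀ N H : ℕ, H₀ ≤ H → H ≤ N →
      ∑ n ∈ Icc 1 N, (1 / (n : ℝ)) * wsup d F n H ≤ (6 / Real.pi ^ 2 * A + ε) * H * Real.log N ∧
      ∑ n ∈ Icc 1 N, wsup d F n H ≤ (6 / Real.pi ^ 2 * A + ε) * H * N := by
  have hA0 := Dev_nonneg F A hA
  have key : ∀ κ : ℝ, 0 < κ → ∃ r₁ : ℕ, ∀ L : ℕ, 1 ≤ L → ∃ K₀ : ℕ, ∀ K : ℕ, K₀ ≤ K → ∀ y : ℕ,
      wsup d F (y + 1) K ≤ (6 / Real.pi ^ 2 * A + κ) * K + ‖F‖ * ∑ k ∈ range K, Gf (mq 2) r₁ L (y + k) := by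
    intro κ hκ
    obtain ⟨r₁, hr₁⟩ := mob_win m d F ‖F‖ A (fun x => F.norm_coe_le_norm x) hA κ hκ
    refine ⟨r₁, fun L hL => ?_⟩
    obtain ⟨K₀, hK₀⟩ := hr₁ L hL
    refine ⟨K₀, fun K hK y => ?_⟩
    have hne : Nonempty {P : Fin m → ℝ[X] // ∀ i, (P i).natDegree ≤ d} := ⟨⟨0, fun i => by simp⟩⟩
    unfold wsup
    apply ciSup_le
    intro P
    set ap : ℝ[X] := X + C ((y : ℝ) + 2) with hap
    have hapd : ap.natDegree ≤ 1 := by
      rw [hap]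
      refine (natDegree_add_le _ _).trans (max_le natDegree_X_le ?_)
      rw [natDegree_C]; exact Nat.zero_le _
    have h1 := hK₀ K hK y (fun i => (P.1 i).comp ap)
      (fun i => natDegree_comp_le.trans ((Nat.mul_le_mul (P.2 i) hapd).trans (le_of_eq (mul_one _))))
    refine le_trans (le_of_eq ?_) h1
    congr 1
    rw [sum_Icc_range]
    apply sum_congr rfl
    intro k _
    rw [mul_comm]
    have h2 : (mq 2 (y + k) : ℂ) = ((ArithmeticFunction.moebius (y + 1 + (k + 1)) : ℤ) : ℂ) := by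
      unfold mq
      rw [show y + k + 2 = y + 1 + (k + 1) by ring]
      push_cast
      rfl
    rw [h2]
    congr 2
    unfold pt
    funext i
    simp only
    rw [eval_comp, hap, eval_add, eval_X, eval_C]
    congr 2
    push_cast
    ring
  obtain ⟨H₀, hH₀⟩ := avg_win (mq 2) mrp_mq2 (fun y K => wsup d F (y + 1) K) (6 / Real.pi ^ 2 * A) ‖F‖ (by positivity) (norm_nonneg _) key ε hε
  refine ⟨H₀, fun N H hH hN => ?_⟩
  obtain ⟨h1, h2⟩ := hH₀ N H hH hN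
  rw [sum_Icc_range, sum_Icc_range]
  refine ⟨le_trans (le_of_eq ?_) h1, h2⟩
  apply sum_congr rfl
  intro n _
  push_cast
  ring

/-- the supremum over real polynomials of the exponential sums with the Möbius function in the window `(n, n + H]` -/
noncomputable def esup (d n H : ℕ) : ℝ :=
  ⨆ P : {P : ℝ[X] // P.natDegree ≤ d}, ‖∑ h ∈ Icc 1 H,
    Complex.exp (2 * Real.pi * Complex.I * ((P.1.eval ((n + h : ℕ) : ℝ) : ℝ) : ℂ)) * ((ArithmeticFunction.moebius (n + h) : ℤ) : ℂ)‖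

lemma esup_le (d n H : ℕ) : esup d n H ≤ wsup d ch1 n H := by
  unfold esup
  have hne : Nonempty {P : ℝ[X] // P.natDegree ≤ d} := ⟨⟨0, by simp⟩⟩
  apply ciSup_le
  intro P
  have h1 := le_ciSup (wsup_bdd d ch1 1 ch1_norm n H) ⟨fun _ => P.1, fun _ => P.2⟩
  refine le_trans (le_of_eq ?_) h1
  simp only
  congr 1
  apply sum_congr rfl
  intro h _
  congr 1
  have h2 := ch1_pt (fun _ => P.1.eval ((n + h : ℕ) : ℝ))
  unfold pt at h2
  rw [h2]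
  unfold E
  congr 1
  push_cast
  ring

theorem exp_avg (d : ℕ) (ε : ℝ) (hε : 0 < ε) :
    ∃ H₀ : ℕ, ∀ N H : ℕ, H₀ ≤ H → H ≤ N →
      ∑ n ∈ Icc 1 N, (1 / (n : ℝ)) * esup d n H ≤ (12 / Real.pi ^ 3 + ε) * H * Real.log N ∧
      ∑ n ∈ Icc 1 N, esup d n H ≤ (12 / Real.pi ^ 3 + ε) * H * N := by
  obtain ⟨H₀, hH₀⟩ := mob_avg 1 d ch1 (2 / Real.pi) dev_ch1 ε hε
  have hpi := Real.pi_pos
  have e1 : 6 / Real.pi ^ 2 * (2 / Real.pi) = 12 / Real.pi ^ 3 := by field_simp; norm_num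
  rw [e1] at hH₀
  refine ⟨H₀, fun N H hH hN => ?_⟩
  obtain ⟨h1, h2⟩ := hH₀ N H hH hN
  refine ⟨le_trans (sum_le_sum fun n _ => ?_) h1, le_trans (sum_le_sum fun n _ => esup_le d n H) h2⟩
  exact mul_le_mul_of_nonneg_left (esup_le d n H) (by positivity)

end Pool.Agent.R509.PP
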