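import Pool.Agent.H373R2.NB.Weyl
import Pool.Agent.R509.HM.Mob

/-!
Library R509.PP (helper509): real polynomials as phases.
-/

set_option autoImplicit false

namespace Pool.Agent.R509.PP

open Finset Polynomial
open Pool.Agent.R509.CD
open Pool.Agent.H373R2.NB (Ph IW IW_all)
open Pool.Agent.Helper602.MK (ee)

lemma Ph_real (d : ℕ) : ∀ f : ℝ[X], f.natDegree ≤ d →
    Ph d ((d.factorial : ℝ) * f.coeff d) (fun n => f.eval (n : ℝ)) := by
  induction d with
  | zero =>
    intro f hf n
    have h1 : f = C (f.coeff 0) := eq_C_of_natDegree_le_zero hf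
    have h2 : f.eval (n : ℝ) = f.coeff 0 := by
      conv_lhs => rw [h1]
      rw [eval_C]
    show f.eval (n : ℝ) = _
    rw [h2]; simp
  | succ d ih =>
    intro f hf h
    set g : ℝ[X] := taylor (h : ℝ) f - f with hg
    have hcoef : ∀ j, d ≤ j → (taylor (h : ℝ) f).coeff j = f.coeff j + (if j = d then ((d : ℝ) + 1) * f.coeff (d + 1) * h else 0) := by
      intro j hj
      rw [taylor_coeff]
      have h1 : (hasseDeriv j f).natDegree < 2 := by
        have := natDegree_hasseDeriv_le f j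
        omega
      rw [eval_eq_sum_range' h1, sum_range_succ, sum_range_succ, sum_range_zero, hasseDeriv_coeff, hasseDeriv_coeff]
      rcases eq_or_ne j d with h2 | h2
      · subst h2
        rw [if_pos rfl, zero_add, zero_add, Nat.choose_self, add_comm 1 j, Nat.choose_succ_self_right]
        push_cast
        ring
      · rw [if_neg h2]
        have h3 : f.coeff (1 + j) = 0 := coeff_eq_zero_of_natDegree_lt (by omega)
        rw [h3, zero_add, zero_add, Nat.choose_self]
        push_cast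
        ring
    have hgd : g.natDegree ≤ d := by
      rw [natDegree_le_iff_coeff_eq_zero]
      intro j hj
      rw [hg, coeff_sub, hcoef j (by omega), if_neg (by omega)]
      ring
    have hgc : g.coeff d = ((d : ℝ) + 1) * f.coeff (d + 1) * h := by
      rw [hg, coeff_sub, hcoef d le_rfl, if_pos rfl]; ring
    have h1 := ih g hgd
    have h2 : (fun n : ℕ => g.eval (n : ℝ)) = fun n : ℕ =>
        f.eval ((n + h : ℕ) : ℝ) - f.eval (n : ℝ) := by
      funext n
      rw [hg, eval_sub, taylor_eval]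
      push_cast
      ring
    have h3 : (d.factorial : ℝ) * g.coeff d = (h : ℝ) * (((d + 1).factorial : ℝ) * f.coeff (d + 1)) := by
      rw [hgc, Nat.factorial_succ]; push_cast; ring
    rw [h2, h3] at h1
    exact h1

lemma E_ee (x : ℝ) : E x = ee x := by
  unfold E ee
  congr 1
  push_cast
  ring

/-- a large Weyl sum gives a rational approximation of the leading coefficient -/
lemma weyl_inv (d : ℕ) (hd : 1 ≤ d) (δ : ℝ) (hδ : 0 < δ) : ∃ W : ℝ, 1 ≤ W ∧ ∀ (K : ℕ) (φ : ℝ[X]), 1 ≤ K → φ.natDegree ≤ d →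
    δ * K < ‖∑ n ∈ range K, E (φ.eval (n : ℝ))‖ →
    ∃ q : ℕ, 1 ≤ q ∧ (q : ℝ) ≤ W ∧ ∃ a : ℤ, |q * ((d.factorial : ℝ) * φ.coeff d) - a| ≤ W / (K : ℝ) ^ d := by
  obtain ⟨c, m, hc, h⟩ := IW_all d hd
  set u : ℝ := max 1 (1 / δ) with hu
  have hu1 : 1 ≤ u := le_max_left _ _
  have hc1 : (1 : ℝ) ≤ c := by exact_mod_cast hc
  have hum : 1 ≤ u ^ m := one_le_pow₀ hu1
  refine ⟨c * u ^ m, by nlinarith, fun K φ hK hφ hS => ?_⟩
  have h1 : (K : ℝ) ≤ u * ‖∑ n ∈ range K, ee (φ.eval (n : ℝ))‖ := by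
    have h2 : (∑ n ∈ range K, ee (φ.eval (n : ℝ))) = ∑ n ∈ range K, E (φ.eval (n : ℝ)) := sum_congr rfl fun n _ => (E_ee _).symm
    rw [h2]
    have h3 : 1 / δ ≤ u := le_max_right _ _
    have h4 : 1 ≤ u * δ := by
      rw [div_le_iff₀ hδ] at h3
      exact h3
    have hK0 : (0 : ℝ) ≤ K := Nat.cast_nonneg K
    have h5 : u * (δ * K) ≤ u * ‖∑ n ∈ range K, E (φ.eval (n : ℝ))‖ := mul_le_mul_of_nonneg_left hS.le (by linarith)
    nlinarith
  obtain ⟨q, hq1, hq2, a, ha⟩ := h K u _ _ hK hu1 (Ph_real d φ hφ) h1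
  exact ⟨q, hq1, hq2, a, ha⟩

/-- differences of powers along progressions -/
lemma pow_diff (e n q i K : ℕ) (he : 1 ≤ e) (h : n + q * i ≤ K) : ∃ Z : ℕ, (n + q * i) ^ e - n ^ e = q * Z ∧ n ^ e ≤ (n + q * i) ^ e ∧
    Z ≤ e * i * K ^ (e - 1) := by
  induction e, he using Nat.le_induction with
  | base =>
    refine ⟨i, by simp, by simp, by simp⟩
  | succ e he ih =>
    obtain ⟨Z, h1, h2, h3⟩ := ih
    have h4 : (n + q * i) ^ e = n ^ e + q * Z := by omega
    refine ⟨n * Z + i * (n + q * i) ^ e, ?_, ?_, ?_⟩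
    · have h5 : (n + q * i) ^ (e + 1) = n ^ (e + 1) + q * (n * Z + i * (n + q * i) ^ e) := by
        calc (n + q * i) ^ (e + 1) = n * (n + q * i) ^ e + q * i * (n + q * i) ^ e := by ring
          _ = n * (n ^ e + q * Z) + q * i * (n + q * i) ^ e := by rw [← h4]
          _ = _ := by ring
      omega
    · exact Nat.pow_le_pow_left (by omega) _
    · have h6 : (n + q * i) ^ e ≤ K ^ e := Nat.pow_le_pow_left h _
      have h7 : n ≤ K := by omega
      have h8 : K ^ e = K * K ^ (e - 1) := by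
        rw [← pow_succ']
        congr 1
        omega
      calc n * Z + i * (n + q * i) ^ e ≤ K * (e * i * K ^ (e - 1)) + i * K ^ e :=
            add_le_add (Nat.mul_le_mul h7 h3) (Nat.mul_le_mul_left _ h6)
        _ = e * i * (K * K ^ (e - 1)) + i * K ^ e := by ring
        _ = (e + 1) * i * K ^ (e + 1 - 1) := by
            rw [← h8, Nat.add_sub_cancel]
            ring

end Pool.Agent.R509.PP
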