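import Pool.Agent.R509.PP.Equi

/-!
Library R509.PP (helper509): preparations for the induction on the degrees.
-/

set_option autoImplicit false

namespace Pool.Agent.R509.PP

open Finset MeasureTheory Polynomial Filter
open Pool.Agent.R509.CD
open Pool.Agent.R509.HK (Gf Gf_nonneg)

/-- mean deviations of `F` along tori -/
def Dev {m : ℕ} (F : C(Fin m → UnitAddCircle, ℂ)) (A : ℝ) : Prop :=
  ∀ (B : Fin m → Fin m → ℤ) (x : Fin m → UnitAddCircle) (c : ℂ), ‖c‖ = 1 → ∃ t : ℝ,
    ∫ y : Fin m → UnitAddCircle, |(c * F (x + act B y)).re - t| ≤ A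

lemma act_add {m : ℕ} (B : Fin m → Fin m → ℤ) (x y : Fin m → UnitAddCircle) : act B (x + y) = act B x + act B y := by
  funext i
  unfold act
  rw [Pi.add_apply, ← sum_add_distrib]
  apply sum_congr rfl
  intro j _
  rw [Pi.add_apply, zsmul_add]

lemma act_act {m : ℕ} (B B' : Fin m → Fin m → ℤ) (y : Fin m → UnitAddCircle) :
    act B (act B' y) = act (fun i j => ∑ k, B i k * B' k j) y := by
  funext i
  unfold act
  simp_rw [sum_smul, smul_sum, mul_smul]
  rw [sum_comm]

/-- composition with an integer matrix -/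
noncomputable def cmp {m : ℕ} (F : C(Fin m → UnitAddCircle, ℂ)) (B : Fin m → Fin m → ℤ) : C(Fin m → UnitAddCircle, ℂ) :=
  ⟨fun y => F (act B y), F.continuous.comp (act_cont B)⟩

lemma cmp_apply {m : ℕ} (F : C(Fin m → UnitAddCircle, ℂ)) (B : Fin m → Fin m → ℤ) (y : Fin m → UnitAddCircle) :
    cmp F B y = F (act B y) := rfl

lemma Dev_cmp {m : ℕ} (F : C(Fin m → UnitAddCircle, ℂ)) (A : ℝ) (h : Dev F A) (B : Fin m → Fin m → ℤ) : Dev (cmp F B) A := by
  intro B' x c hc
  obtain ⟨t, ht⟩ := h (fun i j => ∑ k, B i k * B' k j) (act B x) c hc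
  refine ⟨t, ?_⟩
  simp_rw [cmp_apply, act_add, act_act]
  exact ht

lemma Dev_clamp {m : ℕ} (F : C(Fin m → UnitAddCircle, ℂ)) (M A : ℝ) (hM : ∀ x, ‖F x‖ ≤ M) (h : Dev F A) (B : Fin m → Fin m → ℤ)
    (x : Fin m → UnitAddCircle) (c : ℂ) (hc : ‖c‖ = 1) : ∃ t : ℝ, |t| ≤ M ∧ ∫ y : Fin m → UnitAddCircle, dv F c t (x + act B y) ≤ A := by
  obtain ⟨t, ht⟩ := h B x c hc
  have hM0 : 0 ≤ M := (norm_nonneg _).trans (hM 0)
  refine ⟨max (-M) (min M t), ?_, le_trans ?_ ht⟩
  · rw [abs_le]
    exact ⟨le_max_left _ _, max_le (by linarith) (min_le_left _ _)⟩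
  · have hcont : Continuous fun y : Fin m → UnitAddCircle => x + act B y := continuous_const.add (act_cont _)
    have hint : ∀ (t' : ℝ), Integrable (fun y : Fin m → UnitAddCircle => dv F c t' (x + act B y)) := by
      intro t'
      exact ((dv_cont F c t').comp hcont).integrable_of_hasCompactSupport (HasCompactSupport.of_compactSpace _)
    apply integral_mono (hint _) (hint t)
    intro y
    show |(c * F (x + act B y)).re - max (-M) (min M t)| ≤ |(c * F (x + act B y)).re - t|
    set u := (c * F (x + act B y)).re with hu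
    have h1 : |u| ≤ M := by
      refine (Complex.abs_re_le_norm _).trans ?_
      rw [norm_mul, hc, one_mul]
      exact hM _
    obtain ⟨h2, h3⟩ := abs_le.1 h1
    rcases le_total t M with h4 | h4
    · rw [min_eq_right h4]
      rcases le_total (-M) t with h5 | h5
      · rw [max_eq_right h5]
      · rw [max_eq_left h5, abs_of_nonneg (by linarith), abs_of_nonneg (by linarith)]
        linarith
    · rw [min_eq_left h4, max_eq_right (by linarith), abs_of_nonpos (by linarith), abs_of_nonpos (by linarith)]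
      linarith

lemma Dev_nonneg {m : ℕ} (F : C(Fin m → UnitAddCircle, ℂ)) (A : ℝ) (h : Dev F A) : 0 ≤ A := by
  obtain ⟨t, ht⟩ := h 0 0 1 norm_one
  exact (integral_nonneg fun y => abs_nonneg _).trans ht

lemma ap_sum {β : Type*} [AddCommMonoid β] (f : ℕ → β) (nb q K' : ℕ) :
    ∑ n ∈ range (nb * (K' * q)), f n = ∑ b ∈ range nb, ∑ c ∈ range q, ∑ j ∈ range K', f (b * (K' * q) + c + q * j) := by
  have h1 : ∀ (F : ℕ → β) (L : ℕ), ∑ i ∈ range (L * q), F i = ∑ c ∈ range q, ∑ j ∈ range L, F (c + q * j) := by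
    intro F L
    induction L with
    | zero => simp
    | succ L ih =>
      rw [Nat.add_mul, one_mul, sum_range_add, ih, ← sum_add_distrib]
      apply sum_congr rfl
      intro c _
      rw [sum_range_succ]
      congr 2
      ring
  have h2 : ∀ (F : ℕ → β) (N : ℕ), ∑ n ∈ range (nb * N), F n = ∑ b ∈ range nb, ∑ i ∈ range N, F (b * N + i) := by
    intro F N
    induction nb with
    | zero => simp
    | succ nb ih =>
      rw [Nat.add_mul, one_mul, sum_range_add, ih, sum_range_succ]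
  rw [h2]
  apply sum_congr rfl
  intro b _
  rw [h1]
  apply sum_congr rfl
  intro c _
  apply sum_congr rfl
  intro j _
  rw [add_assoc]

lemma avgG (g : ℕ → ℝ) (hg : ∀ n, |g n| ≤ 1) (r₁ L K : ℕ) (hr : 1 ≤ r₁) (hL : 1 ≤ L) :
    |∑ k ∈ range K, g k| ≤ ∑ k ∈ range K, Gf g r₁ L k + 2 * L := by
  have hL0 : (0 : ℝ) < L := by exact_mod_cast hL
  have h1 := Pool.Agent.R509.HK.shift_avg (fun n => ((g n : ℝ) : ℂ)) (fun n => by rw [Complex.norm_real]; exact hg n) K L
  have h2 : ∀ k ∈ range K, ‖∑ i ∈ range L, ((g (k + i) : ℝ) : ℂ)‖ ≤ L * Gf g r₁ L k := by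
    intro k _
    rw [← Complex.ofReal_sum, Complex.norm_real]
    have h3 : |∑ j ∈ range L, g (k + 1 * j)| / L ≤ Gf g r₁ L k :=
      single_le_sum (f := fun r => |∑ j ∈ range L, g (k + r * j)| / L) (fun _ _ => by positivity) (mem_Icc.2 ⟨le_rfl, hr⟩)
    rw [div_le_iff₀ hL0] at h3
    simp only [one_mul] at h3
    rw [Real.norm_eq_abs]
    linarith
  have h3 := h1.trans (add_le_add (sum_le_sum h2) le_rfl)
  rw [← mul_sum, ← Complex.ofReal_sum, Complex.norm_real, Real.norm_eq_abs] at h3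
  have h4 : (L : ℝ) * |∑ k ∈ range K, g k| ≤ L * (∑ k ∈ range K, Gf g r₁ L k + 2 * L) := by linarith
  exact le_of_mul_le_mul_left h4 hL0

lemma Gf_sub (g : ℕ → ℝ) (r₁ r₂ q L n i : ℕ) (hq : 1 ≤ q) (h : q * r₂ ≤ r₁) :
    Gf (fun j => g (n + q * j)) r₂ L i ≤ Gf g r₁ L (n + q * i) := by
  unfold Gf
  have h1 : ∑ r ∈ Icc 1 r₂, |∑ j ∈ range L, g (n + q * (i + r * j))| / (L : ℝ) =
      ∑ r ∈ (Icc 1 r₂).image (fun r => q * r), |∑ j ∈ range L, g (n + q * i + r * j)| / (L : ℝ) := by
    rw [sum_image (fun a _ b _ hab => Nat.eq_of_mul_eq_mul_left hq hab)]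
    apply sum_congr rfl
    intro r _
    congr 2
    apply sum_congr rfl
    intro j _
    congr 1
    ring
  rw [h1]
  apply sum_le_sum_of_subset_of_nonneg
  · intro r hr
    rw [mem_image] at hr
    obtain ⟨r', hr', rfl⟩ := hr
    rw [mem_Icc] at hr' ⊢
    exact ⟨Nat.mul_pos hq hr'.1, (Nat.mul_le_mul_left q hr'.2).trans h⟩
  · intros; positivity

/-- the change of coordinates attached to a frequency -/
def chg {m : ℕ} (k : Fin m → ℤ) (s : Fin m) (i j : Fin m) : ℤ :=
  if i = s then (if j = s then 1 else - k j) else (if j = i then k s else 0)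

lemma act_chg_ne {m : ℕ} (k : Fin m → ℤ) (s i : Fin m) (hi : i ≠ s) (y : Fin m → UnitAddCircle) :
    act (chg k s) y i = k s • y i := by
  unfold act chg
  rw [sum_eq_single i]
  · rw [if_neg hi, if_pos rfl]
  · intro j _ hj
    rw [if_neg hi, if_neg hj, zero_smul]
  · intro h; exact absurd (mem_univ _) h

lemma act_chg_eq {m : ℕ} (k : Fin m → ℤ) (s : Fin m) (y : Fin m → UnitAddCircle) :
    act (chg k s) y s = y s - ∑ j ∈ univ.erase s, k j • y j := by
  unfold act chg
  rw [← add_sum_erase univ _ (mem_univ s)]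
  simp only [if_true, one_smul]
  rw [sub_eq_add_neg, ← sum_neg_distrib]
  congr 1
  apply sum_congr rfl
  intro j hj
  rw [if_neg (ne_of_mem_erase hj), neg_smul]

lemma coe_norm_le (x : ℝ) : ‖(x : UnitAddCircle)‖ ≤ |x| := by
  rw [UnitAddCircle.norm_eq]
  have h := round_le x 0
  rwa [Int.cast_zero, sub_zero] at h

lemma coe_zsmul' (n : ℤ) (x : ℝ) : (((n : ℝ) * x : ℝ) : UnitAddCircle) = n • (x : UnitAddCircle) := by
  rw [← zsmul_eq_mul]
  rfl

/-- restricting to a progression on which the top coefficient of `k · P` disappears -/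
lemma ap_near {m : ℕ} (e : Fin m → ℕ) (k : Fin m → ℤ) (s : Fin m) (hs : e s ≠ 0) (hks : k s ≠ 0)
    (hmax : ∀ i, k i ≠ 0 → e i ≤ e s) (P : Fin m → ℝ[X]) (hP : ∀ i, (P i).natDegree ≤ e i) (K : ℕ) (hK : 1 ≤ K) (W : ℝ)
    (q : ℕ) (hq : 1 ≤ q) (a : ℤ)
    (ha : |q * (((e s).factorial : ℝ) * (∑ i, C (k i : ℝ) * P i).coeff (e s)) - a| ≤ W / (K : ℝ) ^ (e s))
    (n K' : ℕ) (hn : ∀ j ∈ range K', n + (q * (e s).factorial * (k s).natAbs) * j ≤ K) :
    ∃ P' : Fin m → ℝ[X], (∀ i, (P' i).natDegree ≤ Function.update e s (e s - 1) i) ∧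
      ∀ j ∈ range K', dist (pt fun i => (P i).eval (((n + (q * (e s).factorial * (k s).natAbs) * j : ℕ)) : ℝ))
        (act (chg k s) (pt fun i => (P' i).eval (j : ℝ))) ≤ W * e s * K' / K := by
  set d := e s with hd
  have hd1 : 1 ≤ d := Nat.one_le_iff_ne_zero.2 hs
  set φ : ℝ[X] := ∑ i, C (k i : ℝ) * P i with hφ
  set b : ℝ := ((k s : ℤ) : ℝ) with hb
  have hb0 : b ≠ 0 := by rw [hb]; exact_mod_cast hks
  set q' : ℕ := q * d.factorial * (k s).natAbs with hq'
  have hq'1 : 1 ≤ q' := Nat.mul_pos (Nat.mul_pos hq (Nat.factorial_pos _)) (Int.natAbs_pos.2 hks)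
  have hφd : φ.natDegree ≤ d := by
    rw [hφ]
    apply natDegree_sum_le_of_forall_le
    intro i _
    by_cases hki : k i = 0
    · rw [hki]; simp
    · exact (natDegree_C_mul_le _ _).trans ((hP i).trans (hmax i hki))
  set S : ℝ[X] := C (1 / b) * φ with hS
  have hSd : S.natDegree ≤ d := (natDegree_C_mul_le _ _).trans hφd
  set β : ℝ := S.coeff d with hβ
  have hβ' : β = φ.coeff d / b := by rw [hβ, hS, coeff_C_mul]; ring
  set Sl : ℝ[X] := S - C β * X ^ d with hSl
  have hSld : Sl.natDegree ≤ d - 1 := by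
    rw [natDegree_le_iff_coeff_eq_zero]
    intro N hN
    have e1 : (C β * X ^ d : ℝ[X]).coeff N = if N = d then β else 0 := by
      rw [coeff_C_mul, coeff_X_pow]
      split_ifs <;> simp
    rw [hSl, coeff_sub, e1]
    rcases eq_or_ne N d with h1 | h1
    · rw [h1, if_pos rfl, hβ, sub_self]
    · rw [if_neg h1, sub_zero]
      exact coeff_eq_zero_of_natDegree_lt (by omega)
  set ap : ℝ[X] := C (n : ℝ) + C (q' : ℝ) * X with hap
  have hapd : ap.natDegree ≤ 1 := by
    rw [hap]
    refine (natDegree_add_le _ _).trans (max_le ?_ ?_)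
    · rw [natDegree_C]; exact Nat.zero_le _
    · exact (natDegree_C_mul_le _ _).trans natDegree_X_le
  have hapev : ∀ j : ℕ, ap.eval (j : ℝ) = ((n + q' * j : ℕ) : ℝ) := by
    intro j
    rw [hap]
    simp
  have hcomp : ∀ (f : ℝ[X]) (D : ℕ), f.natDegree ≤ D → (f.comp ap).natDegree ≤ D := by
    intro f D hf
    exact natDegree_comp_le.trans ((Nat.mul_le_mul hf hapd).trans (le_of_eq (mul_one _)))
  refine ⟨fun i => if i = s then C (β * (n : ℝ) ^ d) + Sl.comp ap else (C (1 / b) * P i).comp ap, ?_, ?_⟩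
  · intro i
    by_cases hi : i = s
    · subst hi
      simp only [if_true, Function.update_self]
      refine (natDegree_add_le _ _).trans (max_le ?_ (hcomp _ _ hSld))
      rw [natDegree_C]; exact Nat.zero_le _
    · simp only [if_neg hi, Function.update_of_ne hi]
      exact hcomp _ _ ((natDegree_C_mul_le _ _).trans (hP i))
  · intro j hj
    have hnj := hn j hj
    rw [mem_range] at hj
    obtain ⟨Z, hZ1, hZ2, hZ3⟩ := pow_diff d n q' j K hd1 hnj
    set N : ℕ := n + q' * j with hN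
    have hK0 : (0 : ℝ) < K := by exact_mod_cast hK
    -- the top coefficient
    set sg : ℤ := (k s).sign with hsg
    have hsg2 : ((k s : ℤ) : ℝ) = sg * ((k s).natAbs : ℝ) := by
      have h : ((k s : ℤ) : ℝ) = (((k s).sign * ((k s).natAbs : ℤ) : ℤ) : ℝ) := by rw [Int.sign_mul_natAbs]
      rw [Int.cast_mul, Int.cast_natCast] at h
      rw [hsg]
      exact h
    have hsg1 : (sg : ℝ) * sg = 1 := by
      have h1 : sg * sg = 1 := by
        rcases lt_or_gt_of_ne hks with h | h
        · rw [hsg, Int.sign_eq_neg_one_of_neg h]; norm_num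
        · rw [hsg, Int.sign_eq_one_of_pos h]; norm_num
      exact_mod_cast h1
    set θ : ℝ := q * ((d.factorial : ℝ) * φ.coeff d) - a with hθ
    have h1 : β * q' = sg * (a + θ) := by
      have h2 : φ.coeff d = b * β := by rw [hβ']; field_simp
      have h3 : (a : ℝ) + θ = q * (d.factorial * (b * β)) := by rw [hθ, h2]; ring
      rw [h3, hq', hb, hsg2]
      push_cast
      linear_combination (-(β * q * d.factorial * ((k s).natAbs : ℝ))) * hsg1
    have h2 : β * (N : ℝ) ^ d = β * (n : ℝ) ^ d + (((sg * a * Z : ℤ)) : ℝ) + sg * θ * Z := by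
      have h3 : (N : ℝ) ^ d = (n : ℝ) ^ d + q' * Z := by
        have h4 : N ^ d = n ^ d + q' * Z := by omega
        exact_mod_cast h4
      rw [h3]
      push_cast
      linear_combination (Z : ℝ) * h1
    have h3 : |(sg : ℝ) * θ * Z| ≤ W * d * K' / K := by
      have h4 : |(sg : ℝ)| = 1 := by
        have h5 : |(sg : ℝ)| * |(sg : ℝ)| = 1 := by rw [← abs_mul, hsg1, abs_one]
        nlinarith [abs_nonneg (sg : ℝ)]
      rw [abs_mul, abs_mul, h4, one_mul, Nat.abs_cast]
      have h5 : (Z : ℝ) ≤ d * K' * (K : ℝ) ^ (d - 1) := by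
        have h6 : Z ≤ d * K' * K ^ (d - 1) := hZ3.trans (Nat.mul_le_mul_right _ (Nat.mul_le_mul_left _ hj.le))
        exact_mod_cast h6
      have h6 : (K : ℝ) ^ d = K * (K : ℝ) ^ (d - 1) := by
        rw [← pow_succ']
        congr 1
        omega
      have hW0 : 0 ≤ W / (K : ℝ) ^ d := (abs_nonneg _).trans ha
      calc |θ| * (Z : ℝ) ≤ W / (K : ℝ) ^ d * (d * K' * (K : ℝ) ^ (d - 1)) :=
            mul_le_mul ha h5 (Nat.cast_nonneg _) hW0
        _ = W * d * K' / K := by
            rw [h6]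
            field_simp
    have hW' : 0 ≤ W * d * K' / K := (abs_nonneg _).trans h3
    rw [dist_pi_le_iff hW']
    intro i
    by_cases hi : i = s
    · subst hi
      rw [act_chg_eq]
      have h4 : (pt (fun i' => (P i').eval (N : ℝ)) i) -
          ((pt fun i' => ((if i' = i then C (β * (n : ℝ) ^ d) + Sl.comp ap else (C (1 / b) * P i').comp ap) : ℝ[X]).eval (j : ℝ)) i -
          ∑ l ∈ univ.erase i, k l • (pt fun i' => ((if i' = i then C (β * (n : ℝ) ^ d) + Sl.comp ap else (C (1 / b) * P i').comp ap) : ℝ[X]).eval (j : ℝ)) l) =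
          ((sg * θ * Z : ℝ) : UnitAddCircle) := by
        unfold pt
        simp only [if_true]
        have h5 : ∀ l ∈ univ.erase i, k l • ((((if l = i then C (β * (n : ℝ) ^ d) + Sl.comp ap else (C (1 / b) * P l).comp ap) : ℝ[X]).eval (j : ℝ) : ℝ) : UnitAddCircle) =
            ((((k l : ℝ) * ((1 / b) * (P l).eval (N : ℝ)) : ℝ)) : UnitAddCircle) := by
          intro l hl
          rw [if_neg (ne_of_mem_erase hl), coe_zsmul', eval_comp, hapev, eval_mul, eval_C]
        rw [sum_congr rfl h5]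
        have h6 : (∑ l ∈ univ.erase i, ((((k l : ℝ) * ((1 / b) * (P l).eval (N : ℝ)) : ℝ)) : UnitAddCircle)) =
            (((∑ l ∈ univ.erase i, (k l : ℝ) * ((1 / b) * (P l).eval (N : ℝ)) : ℝ)) : UnitAddCircle) :=
          (map_sum (QuotientAddGroup.mk' (AddSubgroup.zmultiples (1 : ℝ))) _ _).symm
        rw [h6]
        have h7 : (P i).eval (N : ℝ) = S.eval (N : ℝ) - ∑ l ∈ univ.erase i, (k l : ℝ) * ((1 / b) * (P l).eval (N : ℝ)) := by
          have h8 : φ.eval (N : ℝ) = (k i : ℝ) * (P i).eval (N : ℝ) + ∑ l ∈ univ.erase i, (k l : ℝ) * (P l).eval (N : ℝ) := by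
            rw [hφ, eval_finsetSum, ← add_sum_erase univ _ (mem_univ i)]
            simp only [eval_mul, eval_C]
          have h9 : ∑ l ∈ univ.erase i, (k l : ℝ) * ((1 / b) * (P l).eval (N : ℝ)) = (1 / b) * ∑ l ∈ univ.erase i, (k l : ℝ) * (P l).eval (N : ℝ) := by
            rw [mul_sum]
            apply sum_congr rfl
            intro l _
            ring
          rw [h9, hS, eval_mul, eval_C, h8, ← hb]
          field_simp
          ring
        have h8 : S.eval (N : ℝ) = Sl.eval (N : ℝ) + β * (N : ℝ) ^ d := by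
          rw [hSl]
          simp
        have h9 : (P i).eval (N : ℝ) = (β * (n : ℝ) ^ d + Sl.eval (N : ℝ)) - (∑ l ∈ univ.erase i, (k l : ℝ) * ((1 / b) * (P l).eval (N : ℝ))) +
            (((sg * a * Z : ℤ)) : ℝ) + sg * θ * Z := by
          rw [h7, h8, h2]; ring
        have h10 : ((((sg * a * Z : ℤ)) : ℝ) : UnitAddCircle) = 0 := by
          rw [← mul_one (((sg * a * Z : ℤ)) : ℝ), coe_zsmul']
          have : ((1 : ℝ) : UnitAddCircle) = 0 := AddCircle.coe_period 1
          rw [this, smul_zero]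
        have h11 : (C (β * (n : ℝ) ^ d) + Sl.comp ap).eval (j : ℝ) = β * (n : ℝ) ^ d + Sl.eval (N : ℝ) := by
          rw [eval_add, eval_C, eval_comp, hapev]
        rw [h11]
        conv_lhs => rw [h9]
        rw [AddCircle.coe_add, AddCircle.coe_add, AddCircle.coe_sub, h10]
        abel
      rw [dist_eq_norm, h4]
      exact (coe_norm_le _).trans h3
    · rw [act_chg_ne k s i hi]
      have h4 : pt (fun i' => (P i').eval (N : ℝ)) i =
          k s • (pt fun i' => ((if i' = s then C (β * (n : ℝ) ^ d) + Sl.comp ap else (C (1 / b) * P i').comp ap) : ℝ[X]).eval (j : ℝ)) i := by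
        unfold pt
        simp only [if_neg hi]
        rw [eval_comp, hapev, eval_mul, eval_C, ← coe_zsmul', ← hb]
        have h5 : b * (1 / b * (P i).eval (N : ℝ)) = (P i).eval (N : ℝ) := by
          rw [← mul_assoc, mul_one_div_cancel hb0, one_mul]
        rw [h5]
      rw [h4, dist_self]
      exact hW'

end Pool.Agent.R509.PP
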