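import Pool.Agent.R509.PP.StepA

/-!
Library R509.PP (helper509): the induction on the degrees.
-/

set_option autoImplicit false

namespace Pool.Agent.R509.PP

open Finset MeasureTheory Polynomial Filter
open Pool.Agent.R509.CD
open Pool.Agent.R509.HK (Gf Gf_nonneg)

/-- the bound for sums along polynomial orbits with degrees `e` -/
def TT (m : ℕ) (e : Fin m → ℕ) (F : C(Fin m → UnitAddCircle, ℂ)) (M A κ : ℝ) : Prop :=
  ∀ᶠ r₁ : ℕ in atTop, ∀ L : ℕ, 1 ≤ L → ∀ᶠ K : ℕ in atTop, ∀ (σ : ℝ) (g : ℕ → ℝ) (P : Fin m → ℝ[X]), 0 ≤ σ → σ ≤ 1 →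
    (∀ n, |g n| ≤ σ) → (∀ i, (P i).natDegree ≤ e i) →
    ‖∑ k ∈ range K, (g k : ℂ) * F (pt fun i => (P i).eval (k : ℝ))‖ ≤ A * σ * K + κ * K + M * ∑ k ∈ range K, Gf g r₁ L k

/-- the sum of an equidistributed orbit -/
lemma case_equi {m : ℕ} (F : C(Fin m → UnitAddCircle, ℂ)) (M A κ : ℝ) (hM : ∀ x, ‖F x‖ ≤ M) (hA : Dev F A)
    (𝒦 : Finset (Fin m → ℤ)) (δ : ℝ)
    (hequi : ∀ (c : ℂ) (t : ℝ), ‖c‖ = 1 → |t| ≤ M →
      ∀ (I : Finset (Fin m)) (z : ℕ → Fin m → UnitAddCircle) (x₀ : Fin m → UnitAddCircle),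
      (∀ n, ∀ i, i ∉ I → z n i = x₀ i) → ∀ K : ℕ,
      (∀ k ∈ 𝒦, (∃ i ∈ I, k i ≠ 0) → ‖∑ n ∈ range K, (UnitAddTorus.mFourier k (z n) : ℂ)‖ ≤ δ * K) →
      ∑ n ∈ range K, dv F c t (z n) ≤ ((∫ y : Fin m → UnitAddCircle, dv F c t (x₀ + act (msk I) y)) + κ / 2) * K)
    (I : Finset (Fin m)) (z : ℕ → Fin m → UnitAddCircle) (x₀ : Fin m → UnitAddCircle) (hz : ∀ n, ∀ i, i ∉ I → z n i = x₀ i)
    (K : ℕ) (hW : ∀ k ∈ 𝒦, (∃ i ∈ I, k i ≠ 0) → ‖∑ n ∈ range K, (UnitAddTorus.mFourier k (z n) : ℂ)‖ ≤ δ * K)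
    (r₁ L : ℕ) (hr : 1 ≤ r₁) (hL : 1 ≤ L) (hK : 2 * M * L ≤ κ / 2 * K) (σ : ℝ) (g : ℕ → ℝ) (hσ0 : 0 ≤ σ) (hσ1 : σ ≤ 1)
    (hg : ∀ n, |g n| ≤ σ) (hκ : 0 < κ) :
    ‖∑ k ∈ range K, (g k : ℂ) * F (z k)‖ ≤ A * σ * K + κ * K + M * ∑ k ∈ range K, Gf g r₁ L k := by
  have hM0 : 0 ≤ M := (norm_nonneg _).trans (hM 0)
  have hK0 : (0 : ℝ) ≤ K := Nat.cast_nonneg K
  set Sm : ℂ := ∑ k ∈ range K, (g k : ℂ) * F (z k) with hSm
  obtain ⟨c, hc1, hc2⟩ : ∃ c : ℂ, ‖c‖ = 1 ∧ (c * Sm).re = ‖Sm‖ := by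
    by_cases h0 : Sm = 0
    · exact ⟨1, norm_one, by rw [h0]; simp⟩
    · have hn : (‖Sm‖ : ℂ) ≠ 0 := by exact_mod_cast norm_ne_zero_iff.2 h0
      refine ⟨(starRingEnd ℂ) Sm / ‖Sm‖, ?_, ?_⟩
      · rw [norm_div, RCLike.norm_conj, Complex.norm_real, norm_norm, div_self (norm_ne_zero_iff.2 h0)]
      · have h1 : (starRingEnd ℂ) Sm / ‖Sm‖ * Sm = (‖Sm‖ : ℂ) := by
          rw [div_mul_eq_mul_div, mul_comm, Complex.mul_conj, Complex.normSq_eq_norm_sq]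
          push_cast
          field_simp
        rw [h1, Complex.ofReal_re]
  obtain ⟨t, ht1, ht2⟩ := Dev_clamp F M A hM hA (msk I) x₀ c hc1
  have h1 : ‖Sm‖ = ∑ k ∈ range K, g k * ((c * F (z k)).re - t) + t * ∑ k ∈ range K, g k := by
    rw [← hc2, hSm, mul_sum, Complex.re_sum, mul_sum, ← sum_add_distrib]
    apply sum_congr rfl
    intro k _
    have : c * ((g k : ℂ) * F (z k)) = (g k : ℂ) * (c * F (z k)) := by ring
    rw [this, Complex.re_ofReal_mul]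
    ring
  have h2 : ∑ k ∈ range K, g k * ((c * F (z k)).re - t) ≤ σ * ∑ k ∈ range K, dv F c t (z k) := by
    rw [mul_sum]
    apply sum_le_sum
    intro k _
    refine (le_abs_self _).trans ?_
    rw [abs_mul]
    exact mul_le_mul_of_nonneg_right (hg k) (abs_nonneg _)
  have h3 := hequi c t hc1 ht1 I z x₀ hz K hW
  have h4 : σ * ∑ k ∈ range K, dv F c t (z k) ≤ σ * ((A + κ / 2) * K) := by
    apply mul_le_mul_of_nonneg_left _ hσ0
    exact h3.trans (mul_le_mul_of_nonneg_right (by linarith) hK0)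
  have h5 := avgG g (fun n => (hg n).trans hσ1) r₁ L K hr hL
  have h6 : t * ∑ k ∈ range K, g k ≤ M * (∑ k ∈ range K, Gf g r₁ L k + 2 * L) := by
    refine (le_abs_self _).trans ?_
    rw [abs_mul]
    exact mul_le_mul ht1 h5 (abs_nonneg _) hM0
  have h7 : σ * (κ / 2 * K) ≤ 1 * (κ / 2 * K) := mul_le_mul_of_nonneg_right hσ1 (by positivity)
  rw [h1]
  nlinarith

/-- the sum over progressions -/
lemma case_prog {m : ℕ} (F F' : C(Fin m → UnitAddCircle, ℂ)) (M A κ : ℝ) (hM : ∀ x, ‖F x‖ ≤ M) (hA : 0 ≤ A) (hκ : 0 < κ)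
    (z : ℕ → Fin m → UnitAddCircle) (K K' q r₁ r₂ L : ℕ) (hK' : 1 ≤ K') (hq : 1 ≤ q)
    (hr : q * r₂ ≤ r₁) (hqK : M * (q * K') ≤ κ / 4 * K) (e' : Fin m → ℕ)
    (hIH : ∀ (σ : ℝ) (g : ℕ → ℝ) (P : Fin m → ℝ[X]), 0 ≤ σ → σ ≤ 1 →
      (∀ n, |g n| ≤ σ) → (∀ i, (P i).natDegree ≤ e' i) →
      ‖∑ k ∈ range K', (g k : ℂ) * F' (pt fun i => (P i).eval (k : ℝ))‖ ≤ A * σ * K' + κ / 4 * K' + M * ∑ k ∈ range K', Gf g r₂ L k)
    (hnear : ∀ n : ℕ, (∀ j ∈ range K', n + q * j ≤ K) → ∃ P' : Fin m → ℝ[X], (∀ i, (P' i).natDegree ≤ e' i) ∧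
      ∀ j ∈ range K', ‖F (z (n + q * j)) - F' (pt fun i => (P' i).eval (j : ℝ))‖ ≤ κ / 8)
    (σ : ℝ) (g : ℕ → ℝ) (hσ0 : 0 ≤ σ) (hσ1 : σ ≤ 1) (hg : ∀ n, |g n| ≤ σ) :
    ‖∑ k ∈ range K, (g k : ℂ) * F (z k)‖ ≤ A * σ * K + κ * K + M * ∑ k ∈ range K, Gf g r₁ L k := by
  have hM0 : 0 ≤ M := (norm_nonneg _).trans (hM 0)
  have hK0 : (0 : ℝ) ≤ K := Nat.cast_nonneg K
  set f : ℕ → ℂ := fun k => (g k : ℂ) * F (z k) with hf
  set N : ℕ := K' * q with hN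
  have hN1 : 1 ≤ N := Nat.mul_pos hK' hq
  set nb : ℕ := K / N with hnb
  have hKe : K = nb * N + K % N := by
    rw [hnb, mul_comm]; exact (Nat.div_add_mod K N).symm
  have hsplit : ∑ k ∈ range K, f k = ∑ b ∈ range nb, ∑ c ∈ range q, ∑ j ∈ range K', f (b * N + c + q * j) +
      ∑ i ∈ range (K % N), f (nb * N + i) := by
    rw [← ap_sum f nb q K', ← sum_range_add, ← hKe]
  have hrem : ‖∑ i ∈ range (K % N), f (nb * N + i)‖ ≤ κ / 4 * K := by
    have h1 : ∀ i ∈ range (K % N), ‖f (nb * N + i)‖ ≤ M := by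
      intro i _
      rw [hf]
      simp only
      rw [norm_mul, Complex.norm_real]
      have h2 : ‖g (nb * N + i)‖ ≤ 1 := (hg _).trans hσ1
      have h3 := mul_le_mul h2 (hM (z (nb * N + i))) (norm_nonneg _) zero_le_one
      linarith
    refine (norm_sum_le _ _).trans ((sum_le_sum h1).trans ?_)
    rw [sum_const, card_range, nsmul_eq_mul]
    have h2 : ((K % N : ℕ) : ℝ) ≤ N := by exact_mod_cast (Nat.mod_lt K hN1).le
    have h3 : (N : ℝ) = q * K' := by rw [hN]; push_cast; ring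
    have h4 := mul_le_mul_of_nonneg_right h2 hM0
    rw [h3] at h4
    linarith
  have hin : ∀ b ∈ range nb, ∀ c ∈ range q, ‖∑ j ∈ range K', f (b * N + c + q * j)‖ ≤
      (A * σ + 3 * κ / 8) * K' + M * ∑ j ∈ range K', Gf g r₁ L (b * N + c + q * j) := by
    intro b hb c hc
    rw [mem_range] at hb hc
    set n : ℕ := b * N + c with hn
    have hle : ∀ j ∈ range K', n + q * j ≤ K := by
      intro j hj
      rw [mem_range] at hj
      have h1 : (b + 1) * N ≤ nb * N := Nat.mul_le_mul_right _ hb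
      have h2 : q * j + q ≤ q * K' := by
        calc q * j + q = q * (j + 1) := by ring
          _ ≤ q * K' := Nat.mul_le_mul_left _ hj
      have h3 : N = q * K' := by rw [hN, mul_comm]
      have h4 : (b + 1) * N = b * N + N := by ring
      omega
    obtain ⟨P', hP', hnr⟩ := hnear n hle
    have h1 := hIH σ (fun j => g (n + q * j)) P' hσ0 hσ1 (fun _ => hg _) hP'
    have h2 : ‖∑ j ∈ range K', f (n + q * j) - ∑ j ∈ range K', ((g (n + q * j) : ℝ) : ℂ) * F' (pt fun i => (P' i).eval (j : ℝ))‖ ≤ κ / 8 * K' := by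
      rw [← sum_sub_distrib]
      have h3 : ∀ j ∈ range K', ‖f (n + q * j) - ((g (n + q * j) : ℝ) : ℂ) * F' (pt fun i => (P' i).eval (j : ℝ))‖ ≤ κ / 8 := by
        intro j hj
        rw [hf]
        simp only
        rw [← mul_sub, norm_mul, Complex.norm_real]
        have h4 : ‖g (n + q * j)‖ ≤ 1 := (hg _).trans hσ1
        have h5 := mul_le_mul h4 (hnr j hj) (norm_nonneg _) zero_le_one
        linarith
      refine (norm_sum_le _ _).trans ((sum_le_sum h3).trans (le_of_eq ?_))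
      rw [sum_const, card_range, nsmul_eq_mul]; ring
    have h3 : ∑ j ∈ range K', Gf (fun j => g (n + q * j)) r₂ L j ≤ ∑ j ∈ range K', Gf g r₁ L (n + q * j) :=
      sum_le_sum fun j _ => Gf_sub g r₁ r₂ q L n j hq hr
    have h4 := mul_le_mul_of_nonneg_left h3 hM0
    have h5 := norm_add_le (∑ j ∈ range K', f (n + q * j) - ∑ j ∈ range K', ((g (n + q * j) : ℝ) : ℂ) * F' (pt fun i => (P' i).eval (j : ℝ)))
      (∑ j ∈ range K', ((g (n + q * j) : ℝ) : ℂ) * F' (pt fun i => (P' i).eval (j : ℝ)))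
    rw [sub_add_cancel] at h5
    linarith
  have hmain : ‖∑ b ∈ range nb, ∑ c ∈ range q, ∑ j ∈ range K', f (b * N + c + q * j)‖ ≤
      (A * σ + 3 * κ / 8) * K + M * ∑ k ∈ range K, Gf g r₁ L k := by
    have h1 : ‖∑ b ∈ range nb, ∑ c ∈ range q, ∑ j ∈ range K', f (b * N + c + q * j)‖ ≤
        ∑ b ∈ range nb, ∑ c ∈ range q, ((A * σ + 3 * κ / 8) * K' + M * ∑ j ∈ range K', Gf g r₁ L (b * N + c + q * j)) := by
      refine (norm_sum_le _ _).trans (sum_le_sum fun b hb => ?_)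
      exact (norm_sum_le _ _).trans (sum_le_sum fun c hc => hin b hb c hc)
    refine h1.trans ?_
    simp_rw [sum_add_distrib, ← mul_sum]
    rw [← ap_sum (fun n => Gf g r₁ L n) nb q K']
    simp only [sum_const, card_range, nsmul_eq_mul]
    have h2 : (nb : ℝ) * (q * ((A * σ + 3 * κ / 8) * K')) ≤ (A * σ + 3 * κ / 8) * K := by
      have h3 : ((nb * N : ℕ) : ℝ) ≤ K := by
        have : nb * N ≤ K := by omega
        exact_mod_cast this
      rw [hN] at h3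
      push_cast at h3
      have h4 : 0 ≤ A * σ + 3 * κ / 8 := by positivity
      have h5 := mul_le_mul_of_nonneg_left h3 h4
      linarith
    have h3 : ∑ n ∈ range (nb * (K' * q)), Gf g r₁ L n ≤ ∑ k ∈ range K, Gf g r₁ L k := by
      apply sum_le_sum_of_subset_of_nonneg
      · intro x hx
        rw [mem_range] at hx ⊢
        have : nb * (K' * q) ≤ K := by rw [← hN]; omega
        omega
      · intro x _ _; exact Gf_nonneg _ _ _ _
    have h4 := mul_le_mul_of_nonneg_left h3 hM0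
    linarith
  have h1 : ‖∑ k ∈ range K, f k‖ ≤ ‖∑ b ∈ range nb, ∑ c ∈ range q, ∑ j ∈ range K', f (b * N + c + q * j)‖ +
      ‖∑ i ∈ range (K % N), f (nb * N + i)‖ := by
    rw [hsplit]; exact norm_add_le _ _
  have h2 : 0 ≤ κ * K := by positivity
  have h3 : (A * σ + 3 * κ / 8) * (K : ℝ) = A * σ * K + 3 / 8 * (κ * K) := by ring
  rw [h3] at hmain
  change ‖∑ k ∈ range K, f k‖ ≤ _
  linarith

end Pool.Agent.R509.PP
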