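import Pool.Agent.R509.PP.StepC

/-!
Library R509.PP (helper509): windows of sequences with a periodic majorant, averages over windows.
-/

set_option autoImplicit false

namespace Pool.Agent.R509.PP

open Finset MeasureTheory Polynomial Filter
open Pool.Agent.R509.CD
open Pool.Agent.R509.HM (period_sum)
open Pool.Agent.R509.HK (Gf Gf_nonneg MRP sum_shift_le)

/-- the bound in a window for a sequence with a periodic majorant -/
theorem win_bound (m d : ℕ) (F : C(Fin m → UnitAddCircle, ℂ)) (M A : ℝ) (hM : ∀ x, ‖F x‖ ≤ M) (hA : Dev F A)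
    (D : ℕ) (hD : 1 ≤ D) (s : ℕ → ℝ) (hs0 : ∀ n, 0 ≤ s n) (hs1 : ∀ n, s n ≤ 1) (hper : ∀ n, s (n + D) = s n) (ρ : ℝ)
    (hρ : ∑ b ∈ range D, s b ≤ ρ * D) (κ : ℝ) (hκ : 0 < κ) :
    ∃ r₁ : ℕ, ∀ L : ℕ, 1 ≤ L → ∃ K₀ : ℕ, ∀ K : ℕ, K₀ ≤ K → ∀ g : ℕ → ℝ, (∀ n, |g n| ≤ s n) →
      ∀ (y : ℕ) (P : Fin m → ℝ[X]), (∀ i, (P i).natDegree ≤ d) →
      ‖∑ k ∈ range K, (g (y + k) : ℂ) * F (pt fun i => (P i).eval (k : ℝ))‖ ≤ (A * ρ + κ) * K + M * ∑ k ∈ range K, Gf g r₁ L (y + k) := by
  have hM0 : 0 ≤ M := (norm_nonneg _).trans (hM 0)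
  have hA0 := Dev_nonneg F A hA
  have hD0 : (0 : ℝ) < D := by exact_mod_cast hD
  have htt := tt_all m (∑ _i : Fin m, d) (fun _ => d) rfl F M A hM hA (κ / 2) (by positivity)
  unfold TT at htt
  obtain ⟨r₂, hr₂⟩ := htt.exists
  refine ⟨D * r₂, fun L hL => ?_⟩
  obtain ⟨K₁, hK₁⟩ := eventually_atTop.1 (hr₂ L hL)
  obtain ⟨K₂, hK₂⟩ := exists_nat_ge (2 * M * D / κ)
  refine ⟨D * (K₁ + 1) + K₂, fun K hK g hg y P hP => ?_⟩
  have hK0 : (0 : ℝ) ≤ K := Nat.cast_nonneg K
  set K' : ℕ := K / D with hK'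
  have hK'1 : K₁ ≤ K' := by
    rw [hK', Nat.le_div_iff_mul_le hD]
    nlinarith
  have hMD : M * D ≤ κ / 2 * K := by
    have h1 : 2 * M * D / κ ≤ K := hK₂.trans (by exact_mod_cast (by omega : K₂ ≤ K))
    rw [div_le_iff₀ hκ] at h1
    linarith
  have hKe : K = 1 * (K' * D) + K % D := by
    rw [one_mul, hK', mul_comm]; exact (Nat.div_add_mod K D).symm
  set f : ℕ → ℂ := fun k => (g (y + k) : ℂ) * F (pt fun i => (P i).eval (k : ℝ)) with hf
  have hg1 : ∀ n, |g n| ≤ 1 := fun n => (hg n).trans (hs1 n)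
  have hfM : ∀ k, ‖f k‖ ≤ M := by
    intro k
    rw [hf]
    simp only
    rw [norm_mul, Complex.norm_real]
    have h3 := mul_le_mul (show ‖g (y + k)‖ ≤ 1 from hg1 _) (hM (pt fun i => (P i).eval (k : ℝ))) (norm_nonneg _) zero_le_one
    linarith
  have hsplit : ∑ k ∈ range K, f k = ∑ b ∈ range 1, ∑ c ∈ range D, ∑ j ∈ range K', f (b * (K' * D) + c + D * j) +
      ∑ i ∈ range (K % D), f (1 * (K' * D) + i) := by
    rw [← ap_sum f 1 D K', ← sum_range_add, ← hKe]
  rw [sum_range_one] at hsplit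
  simp only [zero_mul, zero_add] at hsplit
  have hrem : ‖∑ i ∈ range (K % D), f (1 * (K' * D) + i)‖ ≤ κ / 2 * K := by
    refine (norm_sum_le _ _).trans ((sum_le_sum fun i _ => hfM _).trans ?_)
    rw [sum_const, card_range, nsmul_eq_mul]
    have h2 : ((K % D : ℕ) : ℝ) ≤ D := by exact_mod_cast (Nat.mod_lt K hD).le
    have h4 := mul_le_mul_of_nonneg_right h2 hM0
    linarith
  have hin : ∀ c ∈ range D, ‖∑ j ∈ range K', f (c + D * j)‖ ≤
      A * s (y + c) * K' + κ / 2 * K' + M * ∑ j ∈ range K', Gf g (D * r₂) L (y + c + D * j) := by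
    intro c _
    have hsp : ∀ j, s (y + c + D * j) = s (y + c) := by
      intro j
      induction j with
      | zero => simp
      | succ j ih => rw [show y + c + D * (j + 1) = (y + c + D * j) + D by ring, hper, ih]
    set ap : ℝ[X] := C (c : ℝ) + C (D : ℝ) * X with hap
    have hapd : ap.natDegree ≤ 1 := by
      rw [hap]
      refine (natDegree_add_le _ _).trans (max_le ?_ ?_)
      · rw [natDegree_C]; exact Nat.zero_le _
      · exact (natDegree_C_mul_le _ _).trans natDegree_X_le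
    have hapev : ∀ j : ℕ, ap.eval (j : ℝ) = ((c + D * j : ℕ) : ℝ) := by
      intro j
      rw [hap]
      simp
    have h1 := hK₁ K' hK'1 (s (y + c)) (fun j => g (y + c + D * j)) (fun i => (P i).comp ap) (hs0 _) (hs1 _)
      (fun n => (hg _).trans (le_of_eq (hsp n)))
      (fun i => natDegree_comp_le.trans ((Nat.mul_le_mul (hP i) hapd).trans (le_of_eq (mul_one _))))
    simp only [eval_comp, hapev] at h1
    have h2 : ∑ j ∈ range K', f (c + D * j) = ∑ j ∈ range K', ((g (y + c + D * j) : ℝ) : ℂ) * F (pt fun i => (P i).eval ((c + D * j : ℕ) : ℝ)) := by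
      apply sum_congr rfl
      intro j _
      rw [hf]
      simp only
      rw [← add_assoc y c (D * j)]
    rw [h2]
    refine h1.trans ?_
    have h3 : ∑ j ∈ range K', Gf (fun j => g (y + c + D * j)) r₂ L j ≤ ∑ j ∈ range K', Gf g (D * r₂) L (y + c + D * j) :=
      sum_le_sum fun j _ => Gf_sub g (D * r₂) r₂ D L (y + c) j hD le_rfl
    have h4 := mul_le_mul_of_nonneg_left h3 hM0
    linarith
  have hmain : ‖∑ c ∈ range D, ∑ j ∈ range K', f (c + D * j)‖ ≤ (A * ρ + κ / 2) * K + M * ∑ k ∈ range K, Gf g (D * r₂) L (y + k) := by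
    refine (norm_sum_le _ _).trans ((sum_le_sum hin).trans ?_)
    have e3 : ∑ c ∈ range D, M * ∑ j ∈ range K', Gf g (D * r₂) L (y + c + D * j) = M * ∑ c ∈ range D, ∑ j ∈ range K', Gf g (D * r₂) L (y + c + D * j) :=
      (mul_sum _ _ _).symm
    rw [sum_add_distrib, sum_add_distrib, e3]
    have h1 : ∑ c ∈ range D, ∑ j ∈ range K', Gf g (D * r₂) L (y + c + D * j) ≤ ∑ k ∈ range K, Gf g (D * r₂) L (y + k) := by
      have h2 := ap_sum (fun k => Gf g (D * r₂) L (y + k)) 1 D K'
      rw [sum_range_one] at h2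
      simp only [zero_mul, zero_add] at h2
      have h3 : ∑ c ∈ range D, ∑ j ∈ range K', Gf g (D * r₂) L (y + c + D * j) = ∑ c ∈ range D, ∑ j ∈ range K', Gf g (D * r₂) L (y + (c + D * j)) := by
        apply sum_congr rfl; intro c _; apply sum_congr rfl; intro j _; rw [add_assoc]
      rw [h3, ← h2]
      apply sum_le_sum_of_subset_of_nonneg
      · intro x hx
        rw [mem_range] at hx ⊢
        omega
      · intro x _ _; exact Gf_nonneg _ _ _ _
    have h2 : ∑ c ∈ range D, A * s (y + c) * K' ≤ A * ρ * K := by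
      have h3 : ∑ c ∈ range D, A * s (y + c) * K' = A * K' * ∑ c ∈ range D, s (y + c) := by
        rw [mul_sum]; apply sum_congr rfl; intro c _; ring
      rw [h3, period_sum s D hper y]
      have h4 : ((K' * D : ℕ) : ℝ) ≤ K := by
        have : K' * D ≤ K := by omega
        exact_mod_cast this
      push_cast at h4
      have h5 : A * K' * ∑ b ∈ range D, s b ≤ A * K' * (ρ * D) := mul_le_mul_of_nonneg_left hρ (by positivity)
      have hρ0 : 0 ≤ ρ := by
        have h6 : 0 ≤ ρ * D := (sum_nonneg fun b _ => hs0 b).trans hρ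
        exact nonneg_of_mul_nonneg_left h6 hD0
      have h6 : A * ρ * ((K' : ℝ) * D) ≤ A * ρ * K := mul_le_mul_of_nonneg_left h4 (by positivity)
      linarith
    have h3 : ∑ _c ∈ range D, κ / 2 * (K' : ℝ) ≤ κ / 2 * K := by
      rw [sum_const, card_range, nsmul_eq_mul]
      have h4 : ((K' * D : ℕ) : ℝ) ≤ K := by
        have : K' * D ≤ K := by omega
        exact_mod_cast this
      push_cast at h4
      have h5 := mul_le_mul_of_nonneg_left h4 (show 0 ≤ κ / 2 by positivity)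
      linarith
    have h4 := mul_le_mul_of_nonneg_left h1 hM0
    linarith
  change ‖∑ k ∈ range K, f k‖ ≤ _
  rw [hsplit]
  refine (norm_add_le _ _).trans ?_
  linarith

/-- partial summation with weights `1 / n` -/
lemma abel (V : ℕ → ℝ) (C : ℝ) (hV : ∀ X : ℕ, ∑ n ∈ range X, V n ≤ C * X) (N : ℕ) :
    ∑ n ∈ range N, V n / (n + 1) ≤ C * ∑ n ∈ range N, (1 : ℝ) / (n + 1) := by
  have key : ∀ N : ℕ, 1 ≤ N → ∑ n ∈ range N, (V n - C) / (n + 1) ≤ (∑ n ∈ range N, (V n - C)) / N := by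
    intro N hN
    induction N, hN using Nat.le_induction with
    | base => simp
    | succ N hN ih =>
      have hN0 : (0 : ℝ) < N := by exact_mod_cast hN
      have hS : ∑ n ∈ range N, (V n - C) ≤ 0 := by
        rw [sum_sub_distrib, sum_const, card_range, nsmul_eq_mul]
        linarith [hV N]
      rw [sum_range_succ, sum_range_succ]
      push_cast
      set S : ℝ := ∑ n ∈ range N, (V n - C) with hSd
      have h1 : S / N ≤ S / (N + 1) := by
        rw [div_le_div_iff₀ hN0 (by positivity)]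
        nlinarith
      rw [add_div]
      linarith
  have h1 : ∑ n ∈ range N, (V n - C) / ((n : ℝ) + 1) ≤ 0 := by
    rcases Nat.eq_zero_or_pos N with h0 | h0
    · subst h0; simp
    · refine (key N h0).trans ?_
      apply div_nonpos_of_nonpos_of_nonneg _ (Nat.cast_nonneg _)
      rw [sum_sub_distrib, sum_const, card_range, nsmul_eq_mul]
      linarith [hV N]
  have h2 : ∑ n ∈ range N, (V n - C) / ((n : ℝ) + 1) = ∑ n ∈ range N, V n / ((n : ℝ) + 1) - C * ∑ n ∈ range N, (1 : ℝ) / ((n : ℝ) + 1) := by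
    rw [mul_sum, ← sum_sub_distrib]
    apply sum_congr rfl
    intro n _
    rw [sub_div]; ring
  linarith

lemma harm_le (N : ℕ) : ∑ n ∈ range N, (1 : ℝ) / (n + 1) ≤ 1 + Real.log N := by
  refine le_trans (le_of_eq ?_) (harmonic_le_one_add_log N)
  unfold harmonic
  push_cast
  apply sum_congr rfl
  intro n _
  rw [one_div]

/-- averages over windows -/
theorem avg_win (g : ℕ → ℝ) (hMR : MRP g) (w : ℕ → ℕ → ℝ) (a M : ℝ) (ha : 0 ≤ a) (hM : 0 ≤ M)
    (hw : ∀ κ : ℝ, 0 < κ → ∃ r₁ : ℕ, ∀ L : ℕ, 1 ≤ L → ∃ K₀ : ℕ, ∀ K : ℕ, K₀ ≤ K → ∀ y : ℕ,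
      w y K ≤ (a + κ) * K + M * ∑ k ∈ range K, Gf g r₁ L (y + k)) (ε : ℝ) (hε : 0 < ε) :
    ∃ H₀ : ℕ, ∀ N H : ℕ, H₀ ≤ H → H ≤ N →
      ∑ n ∈ range N, w n H / (n + 1) ≤ (a + ε) * H * Real.log N ∧
      ∑ n ∈ range N, w n H ≤ (a + ε) * H * N := by
  obtain ⟨r₁, hr₁⟩ := hw (ε / 4) (by positivity)
  set η : ℝ := ε / (8 * (M + 1)) with hη
  have hη0 : 0 < η := by positivity
  have hMη : M * (2 * η) ≤ ε / 4 := by
    rw [hη]
    have : M * (2 * (ε / (8 * (M + 1)))) = ε / 4 * (M / (M + 1)) := by field_simp; ring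
    rw [this]
    have h1 : M / (M + 1) ≤ 1 := by rw [div_le_one (by positivity)]; linarith
    nlinarith
  obtain ⟨L, hL, X₀, hX₀⟩ := hMR r₁ η hη0
  obtain ⟨K₀, hK₀⟩ := hr₁ L hL
  obtain ⟨H₁, hH₁⟩ := exists_nat_ge (Real.exp (2 * (a + ε) / ε))
  refine ⟨K₀ + X₀ + H₁ + 1, fun N H hH hN => ?_⟩
  have hH0 : (0 : ℝ) < H := by exact_mod_cast (by omega : 0 < H)
  have hN0 : (0 : ℝ) < N := by exact_mod_cast (by omega : 0 < N)
  have hG0 : ∀ n, 0 ≤ Gf g r₁ L n := fun n => Gf_nonneg _ _ _ _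
  set V : ℕ → ℝ := fun n => ∑ k ∈ range H, Gf g r₁ L (n + k) with hV
  have hVs : ∀ X : ℕ, ∑ n ∈ range X, V n ≤ 2 * η * H * X := by
    intro X
    rcases le_total X H with h | h
    · have h1 : ∀ n ∈ range X, V n ≤ 2 * η * H := by
        intro n hn
        rw [mem_range] at hn
        have h2 : V n ≤ ∑ k ∈ range (2 * H), Gf g r₁ L k := by
          rw [hV]
          have h3 := sum_shift_le (fun x => Gf g r₁ L x) hG0 H n (by omega)
          refine le_trans (le_of_eq ?_) h3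
          apply sum_congr rfl
          intro k _
          rw [add_comm]
        refine h2.trans ((hX₀ (2 * H) (by omega)).trans (le_of_eq ?_))
        push_cast; ring
      refine (sum_le_sum h1).trans (le_of_eq ?_)
      rw [sum_const, card_range, nsmul_eq_mul]; ring
    · rw [hV]
      simp only
      rw [sum_comm]
      have h1 : ∀ k ∈ range H, ∑ n ∈ range X, Gf g r₁ L (n + k) ≤ 2 * η * X := by
        intro k hk
        rw [mem_range] at hk
        refine (sum_shift_le (fun x => Gf g r₁ L x) hG0 X k (by omega)).trans ((hX₀ (2 * X) (by omega)).trans (le_of_eq ?_))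
        push_cast; ring
      refine (sum_le_sum h1).trans (le_of_eq ?_)
      rw [sum_const, card_range, nsmul_eq_mul]; ring
  have hwV : ∀ n, w n H ≤ (a + ε / 4) * H + M * V n := fun n => hK₀ H (by omega) n
  have hws : ∀ X : ℕ, ∑ n ∈ range X, w n H ≤ ((a + ε / 2) * H) * X := by
    intro X
    refine (sum_le_sum fun n _ => hwV n).trans ?_
    have e3 : ∑ n ∈ range X, M * V n = M * ∑ n ∈ range X, V n := (mul_sum _ _ _).symm
    rw [sum_add_distrib, e3, sum_const, card_range, nsmul_eq_mul]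
    have h1 := mul_le_mul_of_nonneg_left (hVs X) hM
    have h2 : M * (2 * η * H * X) ≤ ε / 4 * H * X := by
      have h3 := mul_le_mul_of_nonneg_right hMη (show 0 ≤ (H : ℝ) * X by positivity)
      linarith
    linarith
  constructor
  · have h1 := abel (fun n => w n H) ((a + ε / 2) * H) hws N
    refine h1.trans ?_
    have h2 := harm_le N
    have h3 : 2 * (a + ε) / ε ≤ Real.log N := by
      rw [Real.le_log_iff_exp_le hN0]
      exact hH₁.trans (by exact_mod_cast (by omega : H₁ ≤ N))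
    have h4 : 2 * (a + ε) ≤ Real.log N * ε := by rwa [div_le_iff₀ hε] at h3
    have h5 : (a + ε / 2) * H * ∑ n ∈ range N, (1 : ℝ) / (n + 1) ≤ (a + ε / 2) * H * (1 + Real.log N) :=
      mul_le_mul_of_nonneg_left h2 (by positivity)
    refine h5.trans ?_
    have h6 : (a + ε / 2) * (1 + Real.log N) ≤ (a + ε) * Real.log N := by nlinarith
    have h7 := mul_le_mul_of_nonneg_right h6 hH0.le
    linarith
  · refine (hws N).trans ?_
    have h1 : (a + ε / 2) * H * N ≤ (a + ε) * H * N := by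
      have : (a + ε / 2) ≤ (a + ε) := by linarith
      exact mul_le_mul_of_nonneg_right (mul_le_mul_of_nonneg_right this hH0.le) hN0.le
    linarith

end Pool.Agent.R509.PP
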